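import Pool.Agent.Work.MP_b17785_an.Lip.Defs

/-!
# The Lipschitz dichotomy for multipliers of `S`: the statements of the modules

MAIN THEOREM (`Main`): a multiplier `lam : S → S` that is not a rotation maps `S` into the
functions with derivative bounded by ONE constant `X`.

PLAN. (A) `LL lam h z` is bounded by `(B/π) ∫_D |h| dA`; in the half plane variable `w = psi z`
this allows growth `|w+1| ^ (3/2)` or `|w+1|^2 / (1 + Re w)`.  (B) Koebe distortion for injective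
functions in the half plane.  (C) Hooks: injective `g y` on `Re v > -1/10`, `g y v = v + O(v^-3)`,
derivative about `y` at `0`, for all `y` with `|y-1| = 2`.  (D) If `f ∈ S`,
`|f ζ| |1-ζ|^2 ≤ K`, `F = f ∘ phi`, then `F (C V + V g_y (m/V))`, `m = psi ζ + a0 ζ`, is injective
in the disk, and `LL` of it is, up to a small error, `F'(C V) (β(V) + (y-1) κ)`; if `LL f z` is
huge there is `V` with `|β(V)| = 2|κ|`, hence `y` with `|y - 1| ≈ 2` for which `LL` vanishes: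
impossible.  (E) (separate file `StmtsE`, helper82) it is enough to consider `f ∈ S` whose omitted
set has at most one point on each circle; these satisfy `|f z| |t-z|^2 ≤ C`.  (F) Assembly.

Every item is a `def X : Prop`; prove `theorem prfX ... : X` in the file named in the item.  If the
docstring says uses P, Q you may take `(hP : P) (hQ : Q)` as hypotheses.
-/

set_option autoImplicit false

open Complex Metric Set Filter Topology MeasureTheory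

namespace Pool.Agent.MultS.Lip

/-! ### A: the functional -/

/-- [A0] Basic facts on the Cayley transforms. With `w = psi ζ`: `Re w = (1-|ζ|^2)/|1-ζ|^2 > 0`,
`w + 1 = 2/(1-ζ)`, `1 - phi w = 2/(w+1)`, `1 - |phi w|^2 = 4 Re w/|w+1|^2`. -/
def Cay : Prop :=
  (∀ ζ ∈ ball (0 : ℂ) 1, psi ζ ∈ Hp ∧ phi (psi ζ) = ζ ∧ psi ζ + 1 = 2 / (1 - ζ)) ∧
  (∀ w ∈ Hp, phi w ∈ ball (0 : ℂ) 1 ∧ psi (phi w) = w ∧ 1 - phi w = 2 / (w + 1) ∧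
    1 - ‖phi w‖ ^ 2 = 4 * w.re / ‖w + 1‖ ^ 2 ∧ 1 < ‖w + 1‖) ∧
  DifferentiableOn ℂ psi (ball 0 1) ∧ DifferentiableOn ℂ phi Hp ∧
  (∀ ζ ∈ ball (0 : ℂ) 1, HasDerivAt psi (2 / (1 - ζ) ^ 2) ζ) ∧
  (∀ w ∈ Hp, HasDerivAt phi (2 / (w + 1) ^ 2) w)

/-- [A1] Linearity of `LL`. Proof: `‖(n+1) lam (n+1)‖ ≤ B` (a term of a summable series with
nonnegative terms is at most its sum), and `‖tc h (n+1) z^(n+1)‖` is summable for holomorphic `h`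
(`prfSer.1`, file B1; divide by `z` if `z ≠ 0`, and for `z = 0` the series has one nonzero term);
alternatively use `tc` bounds `‖tc h n‖ ≤ M/ρ^n`. `tc` is linear (`iteratedDeriv_add`,
`iteratedDeriv_const_mul`, functions analytic at `0`) and depends only on the germ at `0`
(`Filter.EventuallyEq.iteratedDeriv_eq`); `tc` of a constant vanishes for index `≥ 1`;
`tc id 1 = 1`, `tc id n = 0` for `n ≥ 2`, so `LL lam id z = lam 1 = 1`.  See also `Tc.lean`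
(`hasSum_tc`, `tc_of_hasSum`): the linearity of `tc` follows from uniqueness of the power series. -/
def Lin : Prop :=
  ∀ (lam : ℕ → ℂ) (B : ℝ), Pack lam B → ∀ z ∈ ball (0 : ℂ) 1,
    (∀ h : ℂ → ℂ, DifferentiableOn ℂ h (ball 0 1) →
      Summable (fun n : ℕ => ‖((n : ℂ) + 1) * lam (n + 1) * tc h (n + 1) * z ^ n‖)) ∧
    (∀ (h₁ h₂ : ℂ → ℂ) (a b c : ℂ), DifferentiableOn ℂ h₁ (ball 0 1) →
      DifferentiableOn ℂ h₂ (ball 0 1) →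
      LL lam (fun ζ => a * h₁ ζ + b * h₂ ζ + c) z = a * LL lam h₁ z + b * LL lam h₂ z) ∧
    (∀ h₁ h₂ : ℂ → ℂ, EqOn h₁ h₂ (ball 0 1) → LL lam h₁ z = LL lam h₂ z) ∧
    LL lam (fun ζ => ζ) z = 1

/-- [A2] Rotations: `tc (fun ζ => f (t ζ)/t) (n+1) = t^n tc f (n+1)` (termwise).  For the
coefficients use `tc_of_hasSum` with `hasSum_tc` for `f`. -/
def Rota : Prop :=
  ∀ (lam : ℕ → ℂ) (f : ℂ → ℂ) (t : ℂ), DifferentiableOn ℂ f (ball 0 1) → ‖t‖ = 1 →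
    (∀ z : ℂ, LL lam (fun ζ => f (t * ζ) / t) z = LL lam f (t * z)) ∧
    (Sc f → Sc (fun ζ => f (t * ζ) / t))

/-- [A3] Orthogonality: polar coordinates (`Complex.integral_comp_polarCoord_symm`), and for
`0 < r < 1`: `∫_{-π}^{π} h(r e^{iθ}) e^{-imθ} dθ = 2π r^m tc h m` (uniformly convergent power
series, or Cauchy's formula for `iteratedDeriv`), then `∫_0^s 2π r^{2m+1} dr`. Another way: by
uniform convergence of the power series of `h` on `|ζ| ≤ s` it is enough to treat `h = ζ^n`. -/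
def Orth : Prop :=
  ∀ h : ℂ → ℂ, DifferentiableOn ℂ h (ball 0 1) → ∀ s : ℝ, 0 < s → s < 1 → ∀ m : ℕ,
    ∫ ζ in ball (0 : ℂ) s, h ζ * (starRingEnd ℂ) ζ ^ m =
      Real.pi * s ^ (2 * m + 2) / (m + 1) * tc h m

/-- [A4] The area bound (uses Orth). Let `K ζ = ∑ (n+1)(n+2) lam (n+1) z^n (conj ζ)^(n+1)`;
`K ζ = conj ζ * κ(z conj ζ)`, so `|K ζ| ≤ B` by `Pack.kb`.  For `0 < s < 1`, integrating the
series term by term (`hasSum_integral_of_summable_integral_norm`; on `|ζ| < s` the terms are at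
most `C (n+2) |z|^n` because `(n+1)‖lam (n+1)‖ ≤ B` and `h` is bounded there) and using Orth with
`m = n+1`: `∫_{|ζ|<s} h K = π s^4 LL lam h (s^2 z)`.  So `s^4 ‖LL lam h (s^2 z)‖ ≤ (B/π) ∫_{|ζ|<s}
‖h‖ ≤ (B/π) ∫⁻_{ball} ‖h‖`.  Let `s → 1` (`LL lam h` is a power series, continuous in the disk:
or Abel/dominated convergence `tendsto_tsum_of_dominated_convergence`). -/
def AreaD : Prop :=
  ∀ (lam : ℕ → ℂ) (B : ℝ), Pack lam B → ∀ h : ℂ → ℂ, DifferentiableOn ℂ h (ball 0 1) →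
    ∀ z ∈ ball (0 : ℂ) 1,
      ENNReal.ofReal ‖LL lam h z‖ ≤
        ENNReal.ofReal (B / Real.pi) * ∫⁻ ζ in ball (0 : ℂ) 1, ENNReal.ofReal ‖h ζ‖

/-- [A5] Change of variables `ζ = phi w` (uses Cay): `phi` is injective on `Hp` with image the
disk, `|det D phi| = |phi'|^2 = 4/|w+1|^4`; `lintegral_image_eq_lintegral_abs_det_fderiv_mul`. -/
def ChVar : Prop :=
  ∀ G : ℂ → ENNReal, ∫⁻ ζ in ball (0 : ℂ) 1, G ζ =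
    ∫⁻ w in Hp, ENNReal.ofReal (4 / ‖w + 1‖ ^ 4) * G (phi w)

/-- [A6] Two convergent integrals. With `w = x + iy`, `x > 0`: `|w+1|^2 ≥ (1/2)((1+x)^2 + (1+y^2))`
`≥ (1/2) (1+x)^(2θ) (1+y^2)^(1-θ)` (weighted AM-GM, or `a + b ≥ max a b ≥ a^θ b^(1-θ)`).
First: `|w+1|^(-5/2) ≤ 4 (1+x)^(-5/4) (1+y^2)^(-5/8)` (θ = 1/2); second (θ = 1/4):
`|w+1|^(-2) (1+x)^(-1) ≤ 2 (1+x)^(-3/2) (1+y^2)^(-3/4) ≤ 2 (1+x)^(-5/4) (1+y^2)^(-5/8)`.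
The product is integrable: Fubini (`Complex.volume_preserving_equiv_real_prod` or
`Complex.measurableEquivRealProd`), `integrable_one_add_norm`/`integrable_rpow_neg_one_add_norm_sq`
and `integrableOn_Ioi_rpow_of_lt`. -/
def Jint : Prop :=
  ∃ C : ℝ, ∫⁻ w in Hp, ENNReal.ofReal (‖w + 1‖ ^ (-(5 / 2) : ℝ) +
    (‖w + 1‖ ^ 2)⁻¹ * (1 + w.re)⁻¹) ≤ ENNReal.ofReal C

/-- [A7] The bound in the half plane (uses Cay, AreaD, ChVar, Jint).  `‖LL (e∘psi) z‖ ≤ (B/π) ∫_D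
‖e (psi ζ)‖ = (B/π) ∫_Hp 4 |w+1|^(-4) ‖e w‖ ≤ (4BM/π) ∫_Hp (|w+1|^(-5/2) + |w+1|^(-2)/(1+Re w))`. -/
def HalfB : Prop :=
  ∃ C : ℝ, 0 < C ∧ ∀ (lam : ℕ → ℂ) (B : ℝ), Pack lam B → ∀ e : ℂ → ℂ, DifferentiableOn ℂ e Hp →
    ∀ M : ℝ, 0 ≤ M →
    (∀ w ∈ Hp, ‖e w‖ ≤ M * (‖w + 1‖ ^ (3 / 2 : ℝ) + ‖w + 1‖ ^ 2 / (1 + w.re))) →
    ∀ z ∈ ball (0 : ℂ) 1, ‖LL lam (fun ζ => e (psi ζ)) z‖ ≤ C * B * M

/-- [A8] Local bound. Cauchy: `‖tc h (n+1)‖ ≤ M / ρ^(n+1)`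
(`Complex.norm_iteratedDeriv_le_of_forall_mem_sphere_norm_le` or similar, `h` is holomorphic on a
neighbourhood of the closed disk of radius `ρ < 1`), so the `n`-th term is at most
`(n+1)‖lam (n+1)‖ M |z|^n/ρ^(n+1) ≤ 2 M (n+1)‖lam (n+1)‖`. -/
def Loc : Prop :=
  ∀ (lam : ℕ → ℂ) (B : ℝ), Pack lam B → ∀ (ρ M : ℝ) (z : ℂ) (h : ℂ → ℂ), ‖z‖ ≤ ρ → 1 / 2 ≤ ρ →
    ρ < 1 → DifferentiableOn ℂ h (ball 0 1) → (∀ ζ : ℂ, ‖ζ‖ ≤ ρ → ‖h ζ‖ ≤ M) →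
    ‖LL lam h z‖ ≤ 2 * B * M

/-- [A9] Holomorphic dependence on a parameter.  `ρ = (1+‖z‖)/2`.  `tc (h y) (n+1) =
(2πi)^{-1} ∮_{C(0,ρ)} h y ζ / ζ^(n+2) dζ` is holomorphic in `y` (differentiation under the
integral, or locally uniform limits of Riemann sums); on a small closed disk around `y₀` the
function `h` is bounded on `|ζ| = ρ` by `M` (compactness), so the terms of `LL` are bounded by
`(n+1)‖lam (n+1)‖ 2M` and `differentiableOn_tsum_of_summable_norm` applies. -/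
def Hol : Prop :=
  ∀ (lam : ℕ → ℂ) (B : ℝ), Pack lam B → ∀ z ∈ ball (0 : ℂ) 1, ∀ (U : Set ℂ) (h : ℂ → ℂ → ℂ),
    IsOpen U → DifferentiableOn ℂ (fun p : ℂ × ℂ => h p.1 p.2) (U ×ˢ ball (0 : ℂ) 1) →
    DifferentiableOn ℂ (fun y => LL lam (h y) z) U

/-- [A10] The number `κ` (uses Lin, Cay). `tc psi (n+1) = 2` (`psi ζ = 1 + ∑ 2 ζ^(n+1)`), so
`LL lam psi z = 2 ∑ (n+1) lam (n+1) z^n` has absolute value `≤ 2B`; `LL lam (a0 ζ) z = a0`. -/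
def Kap : Prop :=
  ∀ (lam : ℕ → ℂ) (B : ℝ), Pack lam B → ∀ z ∈ ball (0 : ℂ) 1,
    2 ≤ ‖LL lam (fun ζ => psi ζ + ((2 * B + 2 : ℝ) : ℂ) * ζ) z‖ ∧
    ‖LL lam (fun ζ => psi ζ + ((2 * B + 2 : ℝ) : ℂ) * ζ) z‖ ≤ 4 * B + 2

/-- [A11] Multipliers that are not rotations have a pack.  From `finalAll.1` (file All.lean):
`∑ n² lam n z^n` is bounded by `C` in the disk and `∑ n⁴ |lam n|²` converges.  (i) `lam 1 = 1`: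
`lam` applied to `f = id ∈ S`.  (ii) `sm`: Cauchy-Schwarz `2 n |lam n| ≤ n⁴|lam n|² + n^{-2}`.
(iii) `kb`: `∑ (n+1)(n+2) lam (n+1) u^n = ∑ (n+1)² lam (n+1) u^n + ∑ (n+1) lam (n+1) u^n`; the
first sum is `g(u)/u` with `g = ∑ n² lam n u^n`, `g 0 = 0`, bounded by `C` (Schwarz lemma:
`Complex.norm_dslope_le_div_of_mapsTo_ball`, applied with radius `C + 1`, or maximum principle).
(iv) `ne`: `F` injective holomorphic; `F̃ = (F - F 0)/F'(0) ∈ S` (`prfDerNe`: `F'(0) ≠ 0`); by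
`prfLitMult` there is `g ∈ S` with `tc g n = lam n tc F̃ n`, and `g'(z) = ∑ (n+1) tc g (n+1) z^n`
(`prfSer`) `= LL lam F̃ z = LL lam F z / F'(0)`, and `g'(z) ≠ 0` by `prfDerNe`. -/
def PackEx : Prop :=
  ∀ lam : ℕ → ℂ, Lit Sc lam →
    ¬ (∃ x : ℂ, ‖x‖ = 1 ∧ ∀ n : ℕ, 1 ≤ n → lam n = x ^ (n - 1)) → ∃ B : ℝ, Pack lam B

/-! ### B: injective functions in the half plane -/

/-- [B1] The Koebe transform in the half plane (uses Cay).  `ζ ↦ (h (q psi ζ) - h q)/(2 q h'(q))`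
is injective holomorphic, value `0` and derivative `h'(q) q psi'(0)/(2 q h'(q)) = 1` at `0`
(`psi'(0) = 2`); `h'(q) ≠ 0` by `prfDerNe` (file A1). -/
def KTr : Prop :=
  ∀ h : ℂ → ℂ, DifferentiableOn ℂ h Hp → InjOn h Hp → ∀ q : ℝ, 0 < q →
    deriv h (q : ℂ) ≠ 0 ∧
    Sc (fun ζ => (h ((q : ℂ) * psi ζ) - h (q : ℂ)) / (2 * (q : ℂ) * deriv h (q : ℂ)))

/-- [B2] Distortion (uses KTr, Cay).  For `f ∈ S`: `|f'(ζ)| ≤ ∑ n · 3n |ζ|^(n-1) ≤ 6/(1-|ζ|)³`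
(`littAll`: `‖tc f n‖ ≤ 3n`, `prfSer`).  With `f` the Koebe transform at `q`, `p = q psi ζ`,
`ζ = phi (p/q) = (p-q)/(p+q)`: `h'(p) = h'(q) f'(ζ) (1-ζ)²`, `|1-ζ| = 2q/|p+q|`,
`1-|ζ| ≥ (1-|ζ|²)/2 = 2 q Re p/|p+q|²`, so `|h'(p)| ≤ 3 |h'(q)| |p+q|⁴/(q (Re p)³)`, and for
`Re p ≥ q/4` this is `≤ 192 |h'(q)| (|p+q|/q)⁴ ≤ 192·16 |h'(q)| (1+|p-q|/q)⁴`.  Second part:
Cauchy's estimate for `h'` on the disk of radius `q/4` around `p`. -/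
def G4 : Prop :=
  ∃ C : ℝ, 1 ≤ C ∧ ∀ h : ℂ → ℂ, DifferentiableOn ℂ h Hp → InjOn h Hp → ∀ q : ℝ, 0 < q →
    (∀ p : ℂ, q / 4 ≤ p.re →
      ‖deriv h p‖ ≤ C * ‖deriv h (q : ℂ)‖ * (1 + ‖p - q‖ / q) ^ 4) ∧
    (∀ p : ℂ, ‖p - q‖ ≤ q / 2 →
      ‖deriv (deriv h) p‖ ≤ C * ‖deriv h (q : ℂ)‖ / q)

/-- [B3] Shifts of functions of quadratic growth.  If `Re w ≤ 1`: `‖F (w+s)‖ + ‖F w‖ ≤
2K (1+S)² |w+1|²` and `1/(1+Re w) ≥ 1/2`.  If `Re w > 1`: on the segment from `w` to `w+s` (in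
`Re p ≥ Re w`, `|p+1| ≤ (1+S)|w+1|`) Cauchy's estimate on the disk of radius `Re p/2` gives
`|F'(p)| ≤ (2/Re p) K (|p+1| + Re p/2)² ≤ (9/2) K |p+1|²/Re p`, and `1/Re w ≤ 2/(1+Re w)`.
`M = 9 K (1+S)³` works (`Convex.norm_image_sub_le_of_norm_deriv_le`). -/
def Start : Prop :=
  ∀ K S : ℝ, 0 ≤ K → 0 ≤ S → ∃ M : ℝ, 0 ≤ M ∧ ∀ F : ℂ → ℂ, DifferentiableOn ℂ F Hp →
    (∀ w ∈ Hp, ‖F w‖ ≤ K * ‖w + 1‖ ^ 2) → ∀ w ∈ Hp, ∀ s : ℂ, 0 ≤ s.re → ‖s‖ ≤ S →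
    ‖F (w + s) - F w‖ ≤ M * (‖w + 1‖ ^ 2 / (1 + w.re))

/-! ### C: the hooks -/

/-- The single hook `v - A/((v+q)(v+K)(v+2K))`, `A = (y-1) 4 q² K³/(2K+3q)`; the derivative at `0`
is `1 + A (1/q + 1/K + 1/(2K))/(2 q K²) = y`. -/
noncomputable def hk (q : ℂ) (K : ℝ) (y v : ℂ) : ℂ :=
  v - (y - 1) * (4 * q ^ 2 * (K : ℂ) ^ 3 / (2 * (K : ℂ) + 3 * q)) /
    ((v + q) * (v + (K : ℂ)) * (v + 2 * (K : ℂ)))

/-- [C1] Injectivity of the single hook.  Let `y0` be not a real number `≤ 1`, `s = y0 - 1`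
(`s ∈ slitPlane`), `r = s^(-1/2)` (principal, `Re r > 0`), `q = r/Re r`: `Re q = 1` and
`s q² = α := (Re r)^(-2) > 0`.  Partial fractions: with `a = (y-1) 4q²K³/((2K+3q)(2K-q)(K-q))`,
`hk q K y v = v - a/(v+q) + (2a - aq/K)/(v+K) + (aq/K - a)/(v+2K)`  (`field_simp; ring`; `K > |q|`),
and `a → α` as `y → y0`, `K → ∞`.  For `v₁ ≠ v₂ ∈ Om` the difference quotient is
`1 + a/P - (2a - aq/K)/((v₁+K)(v₂+K)) - (aq/K - a)/((v₁+2K)(v₂+2K))`, `P = (v₁+q)(v₂+q)`.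
`|v+K| ≥ K/2` on `Om`, so the last two terms are `O(1/K²)`.  `|P| ≥ 0.81` and
`|P| + Re P ≥ 2b²`, `b = 0.9`: with `p_j = x_j + i t_j`, `x_j ≥ b`, `P = p₁p₂ = X + iY` it is enough
(if `2b² > X`) that `X² + Y² ≥ (2b² - X)²`, i.e. `Y² + 4b²X ≥ 4b⁴`; `X = x₁x₂ - t₁t₂`,
`x₁x₂ ≥ b²`, so it is enough that `Y² = (x₁t₂+x₂t₁)² ≥ 4b² t₁t₂`, clear if `t₁t₂ ≤ 0`, and
otherwise `Y² ≥ 4x₁x₂t₁t₂`.  Hence `|P + α|² = |P|² + 2α Re P + α² ≥ (|P| - α)² + 3.24 α ≥ 3.24 α`, so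
`|1 + α/P| ≥ 1/2` if `|P| ≥ 2α`, and `≥ 0.9/√α` if `|P| ≤ 2α`.  So for `K` large and `|y-y0|`
small the difference quotient is not `0`. -/
def HkA : Prop :=
  ∀ y0 : ℂ, ¬ (y0.im = 0 ∧ y0.re ≤ 1) → ∃ (q : ℂ) (K δ : ℝ), q.re = 1 ∧ 1 ≤ K ∧ 0 < δ ∧ δ ≤ 1 ∧
    ∀ y ∈ ball y0 δ, InjOn (hk q K y) Om

/-- [C2] Bounds for the single hook.  On `Om`: `|v+q| ≥ 0.9`, `|v+K| ≥ 0.9`, `|v+2K| ≥ 1.9`
and each of them is `≥ c₀ (1+|v|)`: e.g. `|v+q| ≥ (1+|v|)/(C)` with `C = 4 + 2|q|` (as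
`1+|v| ≤ 1+|v+q|+|q| ≤ |v+q| (1 + (1+|q|)/0.9)`).  Second bound, with `Q(v) = (v+q)(v+K)(v+2K)`,
`E = (y-1)·4q²K³/(2K+3q)`: `hk v - hk v' - y (v-v') = E (1/Q(v') - 1/Q(v)) - (y-1)(v-v')`,
`1/Q(v') - 1/Q(v) = (v-v') T(v,v')/(Q(v)Q(v'))` with the polynomial
`T(v,v') = (v+K)(v+2K) + (v'+q)(v+2K) + (v'+q)(v'+K)`, `E T(0,0)/Q(0)² = y-1`, and
`T/(Q Q')` is Lipschitz on `|v|,|v'| ≤ 1`: difference to the value at `(0,0)` is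
`≤ C(|v|+|v'|)` (compactness is not needed: polynomials and the lower bounds of `|Q|`). -/
def HkB : Prop :=
  ∀ (q : ℂ) (K R : ℝ), q.re = 1 → 1 ≤ K → ∃ c : ℝ, 0 < c ∧
    DifferentiableOn ℂ (fun p : ℂ × ℂ => hk q K p.1 p.2) (univ ×ˢ Om) ∧
    ∀ y : ℂ, ‖y‖ ≤ R →
      (∀ v ∈ Om, ‖hk q K y v - v‖ ≤ c / (1 + ‖v‖) ^ 3) ∧
      (∀ v ∈ Om, ∀ v' ∈ Om, ‖v‖ ≤ 1 → ‖v'‖ ≤ 1 →
        ‖hk q K y v - hk q K y v' - y * (v - v')‖ ≤ c * ‖v - v'‖ * (‖v‖ + ‖v'‖))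

/-- [C3] Hooks with derivative near `-1` (uses HkA, HkB).  Take `q, K, δ` of HkA for `y0 = I` and
`c₀` of HkB for `R = 3`.  `g y v = L * hk q K I (hk q K (-I*y) v / L)` with `L ≥ 20 (1+c₀)` large
(depending on `ε`).  `|−I y − I| = |y+1| < δ`.  (inj) `Re (hk v/L) ≥ -(1/10 + c₀)/L > -1/10`.
(dec) `‖g v - v‖ ≤ L c₀/(1+|hk v|/L)³ + c₀/(1+|v|)³`, and `1 + |hk v|/L ≥ (1+|v|)/(L (1+c₀))`.
(tay), `|v| ≤ 1`: put `u = hk v/L`, `u₀ = hk 0/L` (`|u|,|u₀| ≤ (1+c₀)/L ≤ 1/20`), by HkB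
`‖g v - g 0 - I (hk v - hk 0)‖ ≤ L c₀ |u-u₀| (|u|+|u₀|) ≤ c₀ |hk v - hk 0| 2(1+c₀)/L` and
`‖hk v - hk 0 + I y v‖ ≤ c₀|v|²`, `|hk v - hk 0| ≤ (3+c₀)|v|`; choose `L` with
`2 c₀ (1+c₀)(3+c₀)/L ≤ ε`. -/
def HkC : Prop :=
  ∃ δ : ℝ, 0 < δ ∧ δ ≤ 1 ∧ ∀ ε : ℝ, 0 < ε → ∃ (c : ℝ) (g : ℂ → ℂ → ℂ), 0 < c ∧
    Hook (-1) δ ε c g

/-- [C4] All hooks that are needed, uniformly (uses HkA, HkB, HkC).  For `y*` on the circle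
`|y-1| = 2`, `y* ≠ -1` (so `y*` is not real `≤ 1`) take `hk` with HkA, HkB (`v' = 0`), for
`y* = -1` HkC: radius `δ(y*)`.  Finitely many disks `ball y* (δ(y*)/2)` cover the circle
(`IsCompact.elim_finite_subcover`, `isCompact_sphere`); `δ` = minimum of the `δ(y*)/2`, `c` =
maximum of the `c(y*)`; a `Hook y* δ* ε* c* g` is a `Hook y0 δ ε c g` if `ball y0 δ ⊆ ball y* δ*`,
`ε* ≤ ε`, `c* ≤ c`. -/
def HkD : Prop :=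
  ∃ δ : ℝ, 0 < δ ∧ δ ≤ 1 ∧ ∀ ε : ℝ, 0 < ε → ∃ c : ℝ, 0 < c ∧ ∀ y0 : ℂ, ‖y0 - 1‖ = 2 →
    ∃ g : ℂ → ℂ → ℂ, Hook y0 δ ε c g

/-! ### D: half plane functions with quadratic growth -/

/-- [D1] The error estimate (uses G4; `C₁` its constant, `q = C V`, `D = ‖F'(q)‖`, `v = u/V`).
`C ≥ M` is large compared with `c`; all points below have real part `≥ C V/2 ≥ q/4`.
CASE `|v| ≤ 1`.  `A(x) = F(x) - F(q) - F'(q)(x-q)`; on `|x-q| ≤ (1+c)V ≤ q/2`: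
`|A'(x)| = |F'(x)-F'(q)| ≤ C₁ D |x-q|/q`.  The expression is
`F'(q) V (g v - g 0 - y v) + [A(q+V g v) - A(q+V g 0)] - [A(q+V v) - A(q)]`, where the first is
`≤ D V (ε|v| + c|v|²)`, the second `≤ V |g v - g 0| C₁ D (1+c)/C ≤ D V|v| C₁(5+c)(1+c)/C`, the
third `≤ D V |v|² C₁/C`; and `V|v| = |u|`, `V|v|² ≤ V^(-1/2)|u|^(3/2)` as `|u| ≤ V`.
CASE `|v| > 1` (so `|u| > V` and `|u| ≤ V^(-1/2)|u|^(3/2)`).  `|F(q+V g v) - F(q+V v)| ≤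
V c (1+|v|)^(-3) C₁ D (1+(|v|+c)/C)⁴ ≤ C₁ c (1+c)⁴ D V (1+|v|) ≤ 2C₁c(1+c)⁴ D |u|`;
`|(y-1) F'(q) u| ≤ 5 D |u|`; `|F(q+V g 0) - F(q)| ≤ V c C₁ D (1+c)⁴ ≤ C₁c(1+c)⁴ D |u|`. -/
def Err : Prop :=
  ∀ c : ℝ, 0 < c → ∃ M : ℝ, 1 ≤ M ∧ ∀ C : ℝ, M ≤ C → ∀ F : ℂ → ℂ, DifferentiableOn ℂ F Hp →
    InjOn F Hp → ∀ (V ε : ℝ) (y : ℂ) (g : ℂ → ℂ), 0 < V → 0 ≤ ε → ε ≤ 1 → ‖y‖ ≤ 4 →
    (∀ v ∈ Om, ‖g v - v‖ ≤ c / (1 + ‖v‖) ^ 3) →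
    (∀ v ∈ Om, ‖v‖ ≤ 1 → ‖g v - g 0 - y * v‖ ≤ ε * ‖v‖ + c * ‖v‖ ^ 2) →
    ∀ u : ℂ, u / (V : ℂ) ∈ Om →
      ‖F ((C : ℂ) * V + V * g (u / V)) - F ((C : ℂ) * V + u) -
        (y - 1) * deriv F ((C : ℂ) * V) * u -
        (F ((C : ℂ) * V + V * g 0) - F ((C : ℂ) * V))‖ ≤
      ‖deriv F ((C : ℂ) * V)‖ *
        ((ε + M / C) * ‖u‖ + M * V ^ (-(1 / 2) : ℝ) * ‖u‖ ^ (3 / 2 : ℝ))

/-- [D2] The function `β(V)` is continuous and tends to `κ` (uses Cay, Lin, Loc, G4, KTr).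
`ρ = max (1/2) ‖z‖`, `m ζ = psi ζ + a0 ζ` (`Re m > -a0`, so `Re (C V + m) > 0`), `h_V ζ =
F (C V + m ζ)`.  Continuity: `(V,ζ) ↦ h_V ζ` is continuous, hence uniformly continuous on compact
sets `[V₁,V₂] × closedBall 0 ρ`; by Lin and Loc `‖LL h_V z - LL h_V' z‖ ≤ 2B sup |h_V - h_V'|`;
`deriv F` is continuous and not `0` (KTr).  Limit: `|m| ≤ M_ρ` on `|ζ| ≤ ρ`; Taylor and G4 give
`|F(CV+m) - F(CV) - F'(CV) m| ≤ C₁ |F'(CV)| M_ρ²/(C V)` as soon as `M_ρ ≤ C V/2`, so by Lin and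
Loc `|β(V) - κ| ≤ 2 B C₁ M_ρ²/(C V) → 0`. -/
def BetC : Prop :=
  ∀ (lam : ℕ → ℂ) (B : ℝ), Pack lam B → ∀ z ∈ ball (0 : ℂ) 1, ∀ F : ℂ → ℂ,
    DifferentiableOn ℂ F Hp → InjOn F Hp → ∀ a0 C : ℝ, 0 < a0 → 1 ≤ C →
    ContinuousOn (fun V : ℝ => LL lam (fun ζ => F ((C : ℂ) * V + (psi ζ + a0 * ζ))) z /
      deriv F ((C : ℂ) * V)) (Ici (10 * a0)) ∧
    Tendsto (fun V : ℝ => LL lam (fun ζ => F ((C : ℂ) * V + (psi ζ + a0 * ζ))) z /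
      deriv F ((C : ℂ) * V)) atTop (𝓝 (LL lam (fun ζ => psi ζ + a0 * ζ) z))

/-- [D3] The hooked functions are injective and jointly holomorphic (uses Cay).  `m ζ = psi ζ +
a0 ζ` is injective on the disk: `m = w + a0 (w-1)/(w+1)` with `w = psi ζ`, and `m(w₁) = m(w₂)`,
`w₁ ≠ w₂`, would give `(w₁+1)(w₂+1) = -2 a0 < 0`, impossible for two numbers with positive real
part (real part and imaginary part: `Im((w₁+1)(w₂+1)) = 0` forces `Im w₂ = -Im w₁ Re(w₂+1)/Re(w₁+1)`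
and then the real part is positive); `Re m > -a0`, so `m/V ∈ Om`; `Re (C + g y v) > C - 1/10 - c
> 0` on `Om`. -/
def Uni : Prop :=
  ∀ (y0 : ℂ) (δ ε c a0 V C : ℝ) (g : ℂ → ℂ → ℂ) (F : ℂ → ℂ), Hook y0 δ ε c g → 0 < a0 →
    10 * a0 ≤ V → c + 1 ≤ C → DifferentiableOn ℂ F Hp → InjOn F Hp →
    (∀ y ∈ ball y0 δ,
      InjOn (fun ζ => F ((C : ℂ) * V + V * g y ((psi ζ + a0 * ζ) / V))) (ball (0 : ℂ) 1)) ∧
    DifferentiableOn ℂ (fun p : ℂ × ℂ => F ((C : ℂ) * V + V * g p.1 ((psi p.2 + a0 * p.2) / V)))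
      (ball y0 δ ×ˢ ball (0 : ℂ) 1)

/-- [D4] A zero.  On the circle `|y - y0| = δ/2`: `‖Φ y - Φ y0‖ ≥ δ/2 - δ/8 = 3δ/8`
(with the `δ/16` bound at both points), so `ball (Φ y0) (3δ/16) ⊆ Φ '' closedBall y0 (δ/2)` by
`DiffContOnCl.ball_subset_image_closedBall`, and `‖Φ y0‖ ≤ δ/16`. -/
def Zer : Prop :=
  ∀ (Φ : ℂ → ℂ) (y0 : ℂ) (δ : ℝ), 0 < δ → DifferentiableOn ℂ Φ (ball y0 δ) →
    (∀ y ∈ ball y0 δ, ‖Φ y - (y - y0)‖ ≤ δ / 16) → ∃ y ∈ ball y0 δ, Φ y = 0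

/-- [D5] (uses Cay, Lin, HalfB, Hol, Kap, KTr, G4, Start, HkD, Err, BetC, Uni, Zer.)
Put `a0 = 2B+2`, `m ζ = psi ζ + a0 ζ`, `κ = LL m z` (`2 ≤ |κ| ≤ 4B+2`), `F = f ∘ phi` on `Hp`
(`F ∘ psi = f` on the disk, `|F w| ≤ (K/4)|w+1|²`, `F` injective, `F'(1) = 1/2`).  `C_J` the
constant of HalfB.  Choose, in this order: `δ` (HkD); `ε ≤ 1` with `C_J B (1+a0) ε ≤ δ/64`; `c`
(HkD); `M` (Err, for `c`); `C ≥ max(M, c+1)` with `C_J B (1+a0) M/C ≤ δ/64`; `V0 ≥ 10 a0` with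
`C_J B M (1+a0)^(3/2) V0^(-1/2) ≤ δ/64`.  For `V ≥ V0`: `β(V) = LL (F(CV+m)) z/F'(CV)`.
START: `e(w) = F(w + s(w)) - F w`, `s(w) = C V0 + a0 phi w` (`Re s ≥ 0`, `|s| ≤ C V0 + a0`), so by
Start and HalfB `‖LL (F(CV0+m)) z - LL f z‖ ≤ C_J B M_s`.  If `‖LL f z‖ > X := C_J B M_s + 1 +
2(4B+2) D₀`, where `‖F'(C V0)‖ ≤ D₀` (G4 with `q = 1`, `p = C V0`: `D₀ = C₁ (1+C V0)⁴`), then
`‖β(V0)‖ > 2|κ|`.  By BetC and the intermediate value theorem there is `V ≥ V0` with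
`‖β(V)‖ = 2|κ|`; `y0 = 1 - β(V)/κ`, `|y0-1| = 2`.  Let `g` be the hook at `y0`,
`Φ y = LL (F(CV + V g y (m/V))) z/(F'(CV) κ)`; `Φ` is holomorphic on `ball y0 δ` (Uni, Hol) and
without zeros (Uni, `Pack.ne`); but by Err (`u = m`, `|m ζ| ≤ (1+a0)|w+1|`), HalfB (`e` = the
expression in Err as function of `w`, `m = w + a0 phi w`, bounded by `‖F'(CV)‖ (…)|w+1|^(3/2)`) and
Lin, `‖Φ y - (β(V)/κ + y - 1)‖ ≤ (δ/64+δ/64+δ/64)/|κ| ≤ δ/16`, and `β(V)/κ + y - 1 = y - y0`.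
Contradiction with Zer. -/
def HKm : Prop :=
  ∀ B K : ℝ, ∃ X : ℝ, ∀ lam : ℕ → ℂ, Pack lam B → ∀ f : ℂ → ℂ, Sc f →
    (∀ ζ ∈ ball (0 : ℂ) 1, ‖f ζ‖ * ‖1 - ζ‖ ^ 2 ≤ K) → ∀ z ∈ ball (0 : ℂ) 1, ‖LL lam f z‖ ≤ X

/-! ### E: the two facts on extremal functions (items in StmtsE, helper82) -/

/-- [E-main 1] Brickman's trick and compactness. -/
def Extr : Prop :=
  ∀ p : ℕ → ℂ, Summable (fun n : ℕ => (n : ℝ) * ‖p n‖) → ∃ f : ℂ → ℂ, Sc f ∧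
    (∀ g : ℂ → ℂ, Sc g → ‖∑' n : ℕ, p n * tc g n‖ ≤ ‖∑' n : ℕ, p n * tc f n‖ + 1) ∧
    ∀ w₁ w₂ : ℂ, w₁ ≠ w₂ → ‖w₁‖ = ‖w₂‖ → w₁ ∈ f '' ball 0 1 ∨ w₂ ∈ f '' ball 0 1

/-- [E-main 2] Growth of functions whose omitted set meets every circle at most once. -/
def GrowE : Prop :=
  ∃ C : ℝ, ∀ f : ℂ → ℂ, Sc f →
    (∀ w₁ w₂ : ℂ, w₁ ≠ w₂ → ‖w₁‖ = ‖w₂‖ → w₁ ∈ f '' ball 0 1 ∨ w₂ ∈ f '' ball 0 1) →
    ∃ t : ℂ, ‖t‖ = 1 ∧ ∀ z ∈ ball (0 : ℂ) 1, ‖f z‖ * ‖t - z‖ ^ 2 ≤ C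

/-! ### F: assembly -/

/-- [F1] The main theorem (uses Lin, Rota, HKm, Extr, GrowE).  `p n = n lam n z^(n-1)`; then
`∑' p n tc g n = LL lam g z` (shift the index, `p 0 = 0`) and `n ‖p n‖ ≤ n B |z|^(n-1)` is
summable.  Take the `f*` of Extr, the `t` of GrowE, `f₁ ζ = f*(tζ)/t ∈ S`: `‖f₁ ζ‖‖1-ζ‖² =
‖f*(tζ)‖ ‖t - tζ‖² ≤ C` and `LL f* z = LL f₁ (z/t)`. So `X = X_HK(B, C) + 1`. -/
def Main : Prop :=
  ∀ B : ℝ, ∃ X : ℝ, ∀ lam : ℕ → ℂ, Pack lam B → ∀ f : ℂ → ℂ, Sc f → ∀ z ∈ ball (0 : ℂ) 1,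
    ‖LL lam f z‖ ≤ X

/-- `mu` (from the index `2` on) has the Lipschitz norm at most `X`. -/
def XN (mu : ℕ → ℂ) (X : ℝ) : Prop :=
  ∀ f : ℂ → ℂ, Sc f → ∀ z ∈ ball (0 : ℂ) 1,
    Summable (fun n : ℕ => ((n : ℂ) + 2) * mu (n + 2) * tc f (n + 2) * z ^ (n + 1)) ∧
    ‖∑' n : ℕ, ((n : ℂ) + 2) * mu (n + 2) * tc f (n + 2) * z ^ (n + 1)‖ ≤ X

/-- [F2] The converse (Noshiro-Warschawski).  The coefficients satisfy, by convergence at real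
points `z` near `1`, `|(n+2) lam (n+2) tc f (n+2)| z^(n+1)` bounded for each `z < 1`, so
`G z = ∑ lam (n+1) tc f (n+1) z^(n+1)` converges absolutely in the disk, `G 0 = 0`, `G' = 1 + E`,
`E` the series in `XN`, `|E| ≤ 1`, `E 0 = 0`, so `|E| < 1` in the disk (Schwarz lemma
`Complex.norm_le_norm_of_mapsTo_ball`-type, or maximum principle), so `Re G' > 0` and `G` is
injective (segment; see the proof of `Suff` in K9.lean for the whole scheme). -/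
def Suf : Prop := ∀ lam : ℕ → ℂ, lam 1 = 1 → XN lam 1 → Lit Sc lam

end Pool.Agent.MultS.Lip
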