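import Pool.Agent.Work.MP_b17785_an.StmtsK

/-!
# Coefficient multipliers of the class S: Brickman's extremal functions and their growth
(note 1848, parts 2 and 3), statements

All items are independent of each other: an item that needs another one has it as a hypothesis.
Tools which are landed and may be cited: `growthAll` (`|f z| ≤ |z| / (1 - |z|) ^ 2`), `littAll`
(`|a_n| ≤ 3 n`), the file `Gol/All.lean` (`gol`: Goluzin's two point inequality), `Tc.lean`.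
-/

set_option autoImplicit false

open Complex Metric Set Filter Topology MeasureTheory
open scoped ENNReal ComplexConjugate

namespace Pool.Agent.MultS

/-- `f` omits at most one value on every circle around `0`. -/
def OneOm (f : ℂ → ℂ) : Prop :=
  ∀ w₁ w₂ : ℂ, w₁ ≠ w₂ → ‖w₁‖ = ‖w₂‖ → w₁ ∈ f '' ball 0 1 ∨ w₂ ∈ f '' ball 0 1

/-- The strictly convex functional of the extremal problem. -/
noncomputable def LPhi (p : ℕ → ℂ) (f : ℂ → ℂ) : ℝ :=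
  ‖∑' n : ℕ, p n * tc f n‖ ^ 2 + ∑' n : ℕ, ‖tc f n‖ ^ 2 * (1 / 16 : ℝ) ^ n

/-- [E1] `S` is closed under coefficientwise limits.
PROOF. `|tc (F k) n| ≤ 3 n` (`littAll`; for `n = 0` the coefficient is `0`), so `|c n| ≤ 3 n`.
Put `f z = ∑ c n z^n` in the unit disk: a power series with radius `≥ 1`, so `f` is holomorphic
there with the coefficients `c n`. For `|z| < 1`, `F k z → f z` by dominated convergence
(`tendsto_tsum_of_dominated_convergence`, bound `3 n |z|^n`). Goluzin's inequality `gol`,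
`(1-r)/(1+r)^3 |a - b| ≤ |F k a - F k b|` for `|a|, |b| ≤ r < 1`, passes to the limit, so `f` is
injective. `f 0 = c 0 = 0`, `f' 0 = c 1 = 1`. -/
def LipLim : Prop :=
  ∀ (F : ℕ → ℂ → ℂ) (c : ℕ → ℂ), (∀ k : ℕ, Sc (F k)) →
    (∀ n : ℕ, Tendsto (fun k : ℕ => tc (F k) n) atTop (𝓝 (c n))) →
    ∃ f : ℂ → ℂ, Sc f ∧ ∀ n : ℕ, tc f n = c n

/-- [E2] Compactness of `S`, in terms of the coefficient sequences.
PROOF. The set is contained in `Set.pi univ (fun n => closedBall 0 (3 n))`, which is compact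
(`isCompact_univ_pi`), by `littAll` (and `tc f 0 = 0`). It is closed: `ℕ → ℂ` is a metrizable
space, so it is enough to take sequences (`isSeqClosed_iff_isClosed`), and that is `LipLim`
(coordinatewise convergence: `tendsto_pi_nhds`). -/
def LipComp : Prop :=
  LipLim → IsCompact {c : ℕ → ℂ | ∃ f : ℂ → ℂ, Sc f ∧ ∀ n : ℕ, c n = tc f n}

/-- [E3] The extremal problem has a solution.
PROOF. Let `K` be the compact set of `LipComp`. On `K` (where `|c n| ≤ 3 n`, `littAll`) the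
functions `c ↦ ∑' p n * c n` and `c ↦ ∑' |c n|^2 (1/16)^n` are continuous: every term is
continuous and the terms are bounded by the summable `3 n |p n|` and `9 n^2 (1/16)^n`
(`continuousOn_tsum`). So `c ↦ |∑' p n c n|^2 + ∑' |c n|^2 (1/16)^n` attains its maximum on the
compact nonempty (the identity is in `S`) set `K` (`IsCompact.exists_isMaxOn`). -/
def LipMax : Prop :=
  IsCompact {c : ℕ → ℂ | ∃ f : ℂ → ℂ, Sc f ∧ ∀ n : ℕ, c n = tc f n} →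
    ∀ p : ℕ → ℂ, Summable (fun n : ℕ => (n : ℝ) * ‖p n‖) →
      ∃ f : ℂ → ℂ, Sc f ∧ ∀ g : ℂ → ℂ, Sc g → LPhi p g ≤ LPhi p f

/-- [E4] The solution is not a proper convex combination.
PROOF. Let `a n = tc f n`, `b n = tc f₁ n`, `c n = tc f₂ n`; `a n = t b n + (1-t) c n` (the
functions are holomorphic and agree near `0`). With `L g = ∑' p n tc g n` (absolutely convergent
by `littAll` and the hypothesis) `L f = t L f₁ + (1-t) L f₂`, so
`|L f|^2 ≤ t |L f₁|^2 + (1-t) |L f₂|^2` (convexity of `|.|^2`), and exactly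
`|a n|^2 = t |b n|^2 + (1-t) |c n|^2 - t (1-t) |b n - c n|^2`. All series converge
(`|tc g n|^2 16^(-n) ≤ 9 n^2 16^(-n)`), so
`LPhi p f ≤ t LPhi p f₁ + (1-t) LPhi p f₂ - t (1-t) ∑' |b n - c n|^2 16^(-n)
   ≤ LPhi p f - t (1-t) ∑' |b n - c n|^2 16^(-n)`. Hence `b n = c n` for all `n`, so `f₁ = f₂` in
the disk (power series). -/
def LipMid : Prop :=
  ∀ p : ℕ → ℂ, Summable (fun n : ℕ => (n : ℝ) * ‖p n‖) →
    ∀ f : ℂ → ℂ, Sc f → (∀ g : ℂ → ℂ, Sc g → LPhi p g ≤ LPhi p f) →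
    ∀ (f₁ f₂ : ℂ → ℂ) (t : ℝ), Sc f₁ → Sc f₂ → 0 < t → t < 1 →
      (∀ z ∈ ball (0 : ℂ) 1, f z = t * f₁ z + (1 - t) * f₂ z) → EqOn f₁ f₂ (ball 0 1)

/-- [E5] Holomorphic square roots in the disk (see the proof of `SqrtT`, file `K1.lean`, for a
holomorphic logarithm of a function without zeros in the disk).  -/
def LipSqrt : Prop :=
  ∀ g : ℂ → ℂ, DifferentiableOn ℂ g (ball 0 1) → (∀ z ∈ ball (0 : ℂ) 1, g z ≠ 0) →
    ∃ ψ : ℂ → ℂ, DifferentiableOn ℂ ψ (ball 0 1) ∧ ∀ z ∈ ball (0 : ℂ) 1, ψ z ^ 2 = g z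

/-- [E6] Brickman's decomposition of a function which omits two values of the same modulus.
PROOF. Note `α, β ≠ 0` (as `0 = f 0` is a value). Let `ψ^2 = (f - α)(f - β)` in the disk
(`LipSqrt`), `a = ψ 0`, so `a^2 = α β ≠ 0`. Differentiating, `2 ψ ψ' = f' (2 f - α - β)`, so
`c := ψ' 0 = -(α + β)/(2 a)` and `c^2 = (α + β)^2 / (4 α β)`. As `|α| = |β|`,
`β / α = conj (α / β)`, so `c^2 = (2 + α/β + β/α)/4 = (1 + Re (α/β))/2` is real, `≥ 0`, and `< 1`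
because `α/β ≠ 1` has modulus `1`. Hence `c` is real and `-1 < c < 1`. Put
`f₁ = (f + (ψ - a))/(1 + c)`, `f₂ = (f - (ψ - a))/(1 - c)`, `t = (1 + c)/2`. Then
`f = t f₁ + (1-t) f₂`, `f_i 0 = 0`, `f_i' 0 = (1 ± c)/(1 ± c) = 1`. INJECTIVITY: let
`f z₁ ± ψ z₁ = f z₂ ± ψ z₂ = s`. Then `(s - f z_i)^2 = ψ(z_i)^2 = (f z_i)^2 - (α+β) f z_i + α β`,
i.e. `(2 s - α - β) f z_i = s^2 - α β` for `i = 1, 2`. If `2 s ≠ α + β`, then `f z₁ = f z₂`, so
`z₁ = z₂`. If `2 s = α + β`, then `s^2 = α β`, `(α - β)^2 = 0`, contradiction. DIFFERENT: if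
`f₁ = f₂` on the disk, then `f = f₁`, so `ψ = a + c f`, `(a + c f)^2 = (f - α)(f - β)` on the disk,
a polynomial equation in `f` with leading coefficient `c^2 - 1 ≠ 0`, so `f` takes at most two
values; but `f` is injective on the infinite disk. -/
def LipBrick : Prop :=
  LipSqrt → ∀ (f : ℂ → ℂ) (α β : ℂ), Sc f → α ∉ f '' ball 0 1 → β ∉ f '' ball 0 1 →
    ‖α‖ = ‖β‖ → α ≠ β →
    ∃ (f₁ f₂ : ℂ → ℂ) (t : ℝ), Sc f₁ ∧ Sc f₂ ∧ 0 < t ∧ t < 1 ∧
      (∀ z ∈ ball (0 : ℂ) 1, f z = t * f₁ z + (1 - t) * f₂ z) ∧ ¬ EqOn f₁ f₂ (ball 0 1)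

/-- [E14, assembly] The interface. -/
def Extr : Prop :=
  ∀ p : ℕ → ℂ, Summable (fun n : ℕ => (n : ℝ) * ‖p n‖) →
    ∃ f : ℂ → ℂ, Sc f ∧
      (∀ g : ℂ → ℂ, Sc g → ‖∑' n : ℕ, p n * tc g n‖ ≤ ‖∑' n : ℕ, p n * tc f n‖ + 1) ∧
      ∀ w₁ w₂ : ℂ, w₁ ≠ w₂ → ‖w₁‖ = ‖w₂‖ → w₁ ∈ f '' ball 0 1 ∨ w₂ ∈ f '' ball 0 1

/-! ### Growth -/

/-- [E7] The part of the image outside a disk is connected.
PROOF. Let `U` be the set. It is open (open mapping theorem), and for every `s > R` the slice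
`U ∩ {|w| = s}` is the circle `|w| = s` without at most one point (`OneOm`), so it is connected
and nonempty (a circle without a point is the image of an open interval under `θ ↦ s exp (iθ)`;
the full circle is the image of `ℝ`). Suppose `U ⊆ A ∪ B` with `A, B` open, `U ∩ A` and `U ∩ B`
nonempty and `U ∩ A ∩ B` empty (`isPreconnected_iff_subset_of_disjoint` or the definition). Each
slice lies in `A` or in `B`; the sets `{|w| : w ∈ U ∩ A}` and `{|w| : w ∈ U ∩ B}` are disjoint,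
open in `ℝ` (the norm is an open map on `ℂ` away from `0`: `w ∈ V` open, `w ≠ 0`, then
`t w ∈ V` for `t` near `1`), nonempty, and their union is the interval `(R, ∞)`, which is
connected: contradiction. -/
def LipConn : Prop :=
  ∀ (f : ℂ → ℂ) (R : ℝ), Sc f → OneOm f → 0 ≤ R →
    IsPreconnected {w : ℂ | w ∈ f '' ball 0 1 ∧ R < ‖w‖}

/-- [E8] Pull back by `f`.
PROOF. `f` restricted to the disk is continuous, injective and open (open mapping theorem), so it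
is an open embedding of the ball; the preimage of a preconnected subset of its range is
preconnected (`IsPreconnected.preimage_of_isOpenMap`, or the inverse function is continuous on
the image and the set is the image under the inverse). -/
def LipConnZ : Prop :=
  ∀ (f : ℂ → ℂ) (R : ℝ), Sc f → IsPreconnected {w : ℂ | w ∈ f '' ball 0 1 ∧ R < ‖w‖} →
    IsPreconnected {z : ℂ | z ∈ ball (0 : ℂ) 1 ∧ R < ‖f z‖}

/-- [E9] The area of the part of the image in an annulus.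
PROOF. The set `E` on the left is measurable (relatively closed in the open ball), `f` is
injective on it with real derivative of determinant `|f'|^2`
(`MeasureTheory.lintegral_abs_det_fderiv_eq_addHaar_image`; see `Gol/` or `K6.lean` for the
determinant), so the integral is the area of `f '' E`, which is contained in
`closedBall 0 (2 R) \ ball 0 R`, of area `4 π R^2 - π R^2` (`Complex.volume_ball`,
`Complex.volume_closedBall`). -/
def LipArea : Prop :=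
  ∀ (f : ℂ → ℂ) (R : ℝ), Sc f → 0 < R →
    ∫⁻ z in {z : ℂ | z ∈ ball (0 : ℂ) 1 ∧ R ≤ ‖f z‖ ∧ ‖f z‖ ≤ 2 * R},
      ENNReal.ofReal (‖deriv f z‖ ^ 2) ≤ ENNReal.ofReal (3 * Real.pi * R ^ 2)

/-- [E10] The contribution of one radius.
PROOF. Put `g r = f (r exp (iθ))`, continuous on `[0, r₀]`, `g 0 = 0`, `|g r₀| > 2 R`. Let
`r₂ = inf {r ∈ [0, r₀] : |g r| ≥ 2 R}` and `r₁ = sup {r ∈ [0, r₂] : |g r| ≤ R}`. Then
`0 < r₁ < r₂ < 1`, `|g r₁| = R`, `|g r₂| = 2 R` and `R ≤ |g r| ≤ 2 R` on `[r₁, r₂]`. So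
`R ≤ |g r₂ - g r₁| ≤ ∫_{r₁}^{r₂} |f'(r exp (iθ))| dr`
(`norm_sub_le_integral_of_norm_deriv_le_of_le` or the fundamental theorem of calculus). By
`growthAll`, `R ≤ |g r| ≤ r/(1-r)^2 ≤ 1/(1-r)^2` on `[r₁, r₂]`, so `1 - r ≤ 1/√R ≤ 1/2`; hence
`r ≥ 1/2` there and `r₂ - r₁ ≤ 1/√R`. Cauchy-Schwarz (`ENNReal.lintegral_mul_le_Lp_mul_Lq` or
`(∫ |f'|)^2 ≤ (r₂ - r₁) ∫ |f'|^2` from `0 ≤ ∫ (|f'| - m)^2`):
`R^2 ≤ (1/√R) ∫_{r₁}^{r₂} |f'|^2 dr ≤ (2/√R) ∫_{r₁}^{r₂} r |f'|^2 dr`. -/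
def LipRay : Prop :=
  ∀ (f : ℂ → ℂ) (R θ r₀ : ℝ), Sc f → 4 ≤ R → 0 < r₀ → r₀ < 1 →
    2 * R < ‖f ((r₀ : ℂ) * exp ((θ : ℂ) * I))‖ →
    ENNReal.ofReal (R ^ 2) ≤ ENNReal.ofReal (2 / Real.sqrt R) *
      ∫⁻ r in {r : ℝ | 0 < r ∧ r < 1 ∧ R ≤ ‖f ((r : ℂ) * exp ((θ : ℂ) * I))‖ ∧
        ‖f ((r : ℂ) * exp ((θ : ℂ) * I))‖ ≤ 2 * R},
        ENNReal.ofReal (r * ‖deriv f ((r : ℂ) * exp ((θ : ℂ) * I))‖ ^ 2)

/-- [E11] The shadow of `{|f| > 2R}` is small.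
PROOF. Let `Sh` be the set on the left: it is open (if `|f (r exp (iθ))| > 2 R`, the same holds
for nearby `θ`). For `θ ∈ Sh` use `LipRay`, integrate over `Sh`, and enlarge to `(-π, π)`:
`R^2 vol Sh ≤ (2/√R) ∫⁻_{θ ∈ (-π, π)} ∫⁻_{r > 0} r |f'(r e^(iθ))|^2 1_E(r e^(iθ)) dr dθ` with
`E` the set of `LipArea`; by polar coordinates (`Complex.lintegral_comp_polarCoord_symm` and
Fubini `lintegral_prod`; the function `1_E |f'|^2` is measurable) the double integral is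
`∫⁻_E |f'|^2 ≤ 3 π R^2`. Divide by `R^2`. -/
def LipShad : Prop :=
  LipArea → LipRay → ∀ (f : ℂ → ℂ) (R : ℝ), Sc f → 4 ≤ R →
    volume {θ : ℝ | θ ∈ Ioo (-Real.pi) Real.pi ∧
      ∃ r : ℝ, 0 < r ∧ r < 1 ∧ 2 * R < ‖f ((r : ℂ) * exp ((θ : ℂ) * I))‖} ≤
      ENNReal.ofReal (6 * Real.pi / Real.sqrt R)

/-- [E12] A connected set with a small shadow has a small set of directions.
PROOF. Fix `w ∈ E` and put `u z = |z/|z| - w/|w||`, continuous on `E`, `u w = 0`; let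
`d = u z`. As `E` is preconnected, `u` takes on `E` every value in `[0, d]`
(`IsPreconnected.intermediate_value`). If `u z' = t`, `z' = r exp (iθ)` with
`θ = arg z' ∈ (-π, π]`, then `t = g θ` with `g θ = |exp (iθ) - w/|w||`, and `θ` is in the shadow
`Sh` unless `θ = π`, `t = g π`. So `[0, d] \ {g π} ⊆ g '' Sh`. `g` is `1`-Lipschitz
(`|exp (iθ) - exp (iθ')| ≤ |θ - θ'|`), so `d ≤ vol (g '' Sh) ≤ vol Sh ≤ l`
(`LipschitzWith.hausdorffMeasure_image_le` with exponent `1` and `MeasureTheory.hausdorffMeasure_real`;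
or cover `Sh` by intervals). -/
def LipProj : Prop :=
  ∀ (E : Set ℂ) (l : ℝ), IsPreconnected E → (0 : ℂ) ∉ E → 0 ≤ l →
    volume {θ : ℝ | θ ∈ Ioo (-Real.pi) Real.pi ∧
      ∃ r : ℝ, 0 < r ∧ (r : ℂ) * exp ((θ : ℂ) * I) ∈ E} ≤ ENNReal.ofReal l →
    ∀ z ∈ E, ∀ w ∈ E, ‖z / ((‖z‖ : ℝ) : ℂ) - w / ((‖w‖ : ℝ) : ℂ)‖ ≤ l

/-- [E13] Growth of the extremal functions.
PROOF. (i) For `R ≥ 4` and `z, w` in the disk with `|f z|, |f w| > 2 R`:
`|z/|z| - w/|w|| ≤ 6 π/√R`: apply `LipProj` to `E = {z ∈ ball : 2R < |f z|}` (preconnected by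
`LipConn` and `LipConnZ`; `0 ∉ E` as `f 0 = 0`; its shadow is the set of `LipShad`).
(ii) `f` is unbounded: for every `s > 0` one of `s`, `-s` is a value (`OneOm`). Choose `z_k` in
the disk with `|f z_k| > 2 · 4^(k+1)`. By (i) `(z_k/|z_k|)` is a Cauchy sequence
(`|z_k/|z_k| - z_j/|z_j|| ≤ 6 π / 2^(k+1)` for `j ≥ k`), let `t` be its limit, `|t| = 1`.
(iii) Let `z` be in the disk. If `|f z| ≤ 12`, then `|f z| |t - z|^2 ≤ 48`. Otherwise put
`R = |f z|/3 > 4`, so `|f z| > 2 R` and `|f z_k| > 2 R` for large `k`; by (i), `k → ∞`,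
`|z/|z| - t| ≤ 6 π √3/√|f z| ≤ 33/√|f z|`. By `growthAll`, `|f z| ≤ 1/(1-|z|)^2`, so
`|z - z/|z|| = 1 - |z| ≤ 1/√|f z|`. Hence `|f z| |t - z|^2 ≤ 34^2 ≤ 1200`. -/
def LipGrw : Prop :=
  LipConn → LipConnZ → (∀ (f : ℂ → ℂ) (R : ℝ), Sc f → 4 ≤ R →
    volume {θ : ℝ | θ ∈ Ioo (-Real.pi) Real.pi ∧
      ∃ r : ℝ, 0 < r ∧ r < 1 ∧ 2 * R < ‖f ((r : ℂ) * exp ((θ : ℂ) * I))‖} ≤
      ENNReal.ofReal (6 * Real.pi / Real.sqrt R)) → LipProj →
  ∀ f : ℂ → ℂ, Sc f → OneOm f → ∃ t : ℂ, ‖t‖ = 1 ∧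
    ∀ z ∈ ball (0 : ℂ) 1, ‖f z‖ * ‖t - z‖ ^ 2 ≤ 1200

/-- The interface. -/
def GrowE : Prop :=
  ∃ C : ℝ, ∀ f : ℂ → ℂ, Sc f →
    (∀ w₁ w₂ : ℂ, w₁ ≠ w₂ → ‖w₁‖ = ‖w₂‖ → w₁ ∈ f '' ball 0 1 ∨ w₂ ∈ f '' ball 0 1) →
    ∃ t : ℂ, ‖t‖ = 1 ∧ ∀ z ∈ ball (0 : ℂ) 1, ‖f z‖ * ‖t - z‖ ^ 2 ≤ C

end Pool.Agent.MultS
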