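import Pool.Agent.Work.MP_b17785_an.Lip.Stmts
import Pool.Agent.Work.MP_b17785_an.Bd.B02

set_option autoImplicit false

open Complex Metric Set Filter Topology MeasureTheory

namespace Pool.Agent.MultS.Lip

namespace AreaD'

/-- the terms of the kernel -/
noncomputable def T (lam : ℕ → ℂ) (z : ℂ) (n : ℕ) (ζ : ℂ) : ℂ :=
  ((n : ℂ) + 1) * ((n : ℂ) + 2) * lam (n + 1) * z ^ n * (starRingEnd ℂ) ζ ^ (n + 1)

variable {lam : ℕ → ℂ} {B : ℝ}

theorem lam_bound (hP : Pack lam B) (n : ℕ) : ((n : ℝ) + 1) * ‖lam (n + 1)‖ ≤ B :=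
  (hP.sm.le_tsum n (fun _ _ => by positivity)).trans hP.sb

theorem norm_n1 (n : ℕ) : ‖((n : ℂ) + 1)‖ = (n : ℝ) + 1 := by
  have h : ((n : ℂ) + 1) = (((n : ℝ) + 1 : ℝ) : ℂ) := by push_cast; rfl
  rw [h, Complex.norm_real, Real.norm_of_nonneg (by positivity)]

theorem norm_n2 (n : ℕ) : ‖((n : ℂ) + 2)‖ = (n : ℝ) + 2 := by
  have h : ((n : ℂ) + 2) = (((n : ℝ) + 2 : ℝ) : ℂ) := by push_cast; rfl
  rw [h, Complex.norm_real, Real.norm_of_nonneg (by positivity)]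

theorem T_bound (hP : Pack lam B) (z : ℂ) (n : ℕ) {ζ : ℂ} (hζ : ‖ζ‖ ≤ 1) :
    ‖T lam z n ζ‖ ≤ B * (((n : ℝ) + 2) * ‖z‖ ^ n) := by
  unfold T
  rw [norm_mul, norm_mul, norm_mul, norm_mul, norm_pow, norm_pow, norm_n1, norm_n2,
    RCLike.norm_conj]
  have h1 := lam_bound hP n
  have h2 : ‖ζ‖ ^ (n + 1) ≤ 1 := pow_le_one₀ (norm_nonneg _) hζ
  have h3 : 0 ≤ ((n : ℝ) + 2) * ‖z‖ ^ n := by positivity
  calc ((n : ℝ) + 1) * ((n : ℝ) + 2) * ‖lam (n + 1)‖ * ‖z‖ ^ n * ‖ζ‖ ^ (n + 1)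
      = (((n : ℝ) + 1) * ‖lam (n + 1)‖) * (((n : ℝ) + 2) * ‖z‖ ^ n) * ‖ζ‖ ^ (n + 1) := by ring
    _ ≤ (((n : ℝ) + 1) * ‖lam (n + 1)‖) * (((n : ℝ) + 2) * ‖z‖ ^ n) * 1 :=
        mul_le_mul_of_nonneg_left h2 (by positivity)
    _ ≤ B * (((n : ℝ) + 2) * ‖z‖ ^ n) := by
        rw [mul_one]
        exact mul_le_mul_of_nonneg_right h1 h3

theorem sum_bound {r : ℝ} (h0 : 0 ≤ r) (h1 : r < 1) :
    Summable (fun n : ℕ => ((n : ℝ) + 2) * r ^ n) := by
  have h2 : Summable (fun n : ℕ => (n : ℝ) ^ 1 * r ^ n) :=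
    summable_pow_mul_geometric_of_norm_lt_one 1 (by rwa [Real.norm_of_nonneg h0])
  have h3 : Summable (fun n : ℕ => 2 * r ^ n) := (summable_geometric_of_lt_one h0 h1).mul_left 2
  refine (h2.add h3).congr ?_
  intro n
  ring

theorem tsum_T (z ζ : ℂ) : ∑' n : ℕ, T lam z n ζ = (starRingEnd ℂ) ζ *
    ∑' n : ℕ, ((n : ℂ) + 1) * ((n : ℂ) + 2) * lam (n + 1) * (z * (starRingEnd ℂ) ζ) ^ n := by
  rw [← tsum_mul_left]
  congr 1
  funext n
  unfold T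
  rw [mul_pow, pow_succ]
  ring

theorem tsum_T_bound (hP : Pack lam B) {z ζ : ℂ} (hz : ‖z‖ < 1) (hζ : ‖ζ‖ < 1) :
    ‖∑' n : ℕ, T lam z n ζ‖ ≤ B := by
  rw [tsum_T, norm_mul, RCLike.norm_conj]
  have h1 : z * (starRingEnd ℂ) ζ ∈ ball (0 : ℂ) 1 := by
    rw [mem_ball_zero_iff, norm_mul, RCLike.norm_conj]
    nlinarith [norm_nonneg z, norm_nonneg ζ]
  have h2 := hP.kb _ h1
  have h3 : 0 ≤ B := by linarith [hP.le]
  nlinarith [norm_nonneg ζ, norm_nonneg (∑' n : ℕ, ((n : ℂ) + 1) * ((n : ℂ) + 2) * lam (n + 1) *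
    (z * (starRingEnd ℂ) ζ) ^ n)]

theorem T_cont (z : ℂ) (n : ℕ) : Continuous (T lam z n) := by
  unfold T
  exact continuous_const.mul (Complex.continuous_conj.pow _)

theorem main (hO : Orth) (hP : Pack lam B) {h : ℂ → ℂ} (hh : DifferentiableOn ℂ h (ball 0 1))
    {z : ℂ} (hz : ‖z‖ < 1) {s : ℝ} (hs0 : 0 < s) (hs1 : s < 1) :
    ∫ ζ in ball (0 : ℂ) s, h ζ * ∑' n : ℕ, T lam z n ζ =
      Real.pi * s ^ 4 * LL lam h (s ^ 2 * z) := by
  have hsub : closedBall (0 : ℂ) s ⊆ ball 0 1 := closedBall_subset_ball hs1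
  have hcont : ContinuousOn h (closedBall 0 s) := hh.continuousOn.mono hsub
  obtain ⟨M, hM⟩ := (isCompact_closedBall (0 : ℂ) s).exists_bound_of_continuousOn hcont
  have hM0 : 0 ≤ M := (norm_nonneg _).trans (hM 0 (by simp [hs0.le]))
  have hB0 : 0 ≤ B := by linarith [hP.le]
  have hint : ∀ n : ℕ, IntegrableOn (fun ζ => h ζ * T lam z n ζ) (ball (0 : ℂ) s) := by
    intro n
    have h1 : ContinuousOn (fun ζ => h ζ * T lam z n ζ) (closedBall (0 : ℂ) s) :=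
      hcont.mul (T_cont z n).continuousOn
    exact (h1.integrableOn_compact (isCompact_closedBall _ _)).mono_set ball_subset_closedBall
  have hnb : ∀ n : ℕ, ∫ ζ in ball (0 : ℂ) s, ‖h ζ * T lam z n ζ‖ ≤
      (M * B * (volume.real (ball (0 : ℂ) s))) * (((n : ℝ) + 2) * ‖z‖ ^ n) := by
    intro n
    have h1 : ∫ ζ in ball (0 : ℂ) s, ‖h ζ * T lam z n ζ‖ ≤
        ∫ ζ in ball (0 : ℂ) s, M * (B * (((n : ℝ) + 2) * ‖z‖ ^ n)) := by
      apply setIntegral_mono_on (hint n).norm _ measurableSet_ball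
      · intro ζ hζ
        rw [norm_mul]
        have h2 := hM ζ (ball_subset_closedBall hζ)
        have h3 := T_bound hP z n (ζ := ζ) (by
          have := mem_ball_zero_iff.1 hζ
          linarith)
        exact mul_le_mul h2 h3 (norm_nonneg _) hM0
      · exact integrableOn_const measure_ball_lt_top.ne
    refine h1.trans (le_of_eq ?_)
    rw [setIntegral_const, smul_eq_mul]
    ring
  have hsum : Summable (fun n : ℕ => ∫ ζ in ball (0 : ℂ) s, ‖h ζ * T lam z n ζ‖) := by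
    refine Summable.of_nonneg_of_le (fun n => ?_) hnb
      ((sum_bound (norm_nonneg z) hz).mul_left _)
    exact integral_nonneg (fun _ => norm_nonneg _)
  have hHS := hasSum_integral_of_summable_integral_norm hint hsum
  have h1 : ∫ ζ in ball (0 : ℂ) s, h ζ * ∑' n : ℕ, T lam z n ζ =
      ∫ ζ in ball (0 : ℂ) s, ∑' n : ℕ, h ζ * T lam z n ζ := by
    congr 1
    funext ζ
    rw [tsum_mul_left]
  rw [h1, ← hHS.tsum_eq]
  unfold LL
  rw [← tsum_mul_left]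
  congr 1
  funext n
  have h2 : ∫ ζ in ball (0 : ℂ) s, h ζ * T lam z n ζ =
      (((n : ℂ) + 1) * ((n : ℂ) + 2) * lam (n + 1) * z ^ n) *
        ∫ ζ in ball (0 : ℂ) s, h ζ * (starRingEnd ℂ) ζ ^ (n + 1) := by
    rw [← integral_const_mul]
    congr 1
    funext ζ
    unfold T
    ring
  rw [h2, hO h hh s hs0 hs1 (n + 1)]
  have h3 : ((n : ℂ) + 2) ≠ 0 := by
    have := norm_n2 n
    intro h0
    rw [h0, norm_zero] at this
    have h4 : (0 : ℝ) ≤ n := Nat.cast_nonneg n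
    linarith
  have h4 : (((n + 1 : ℕ) : ℂ) + 1) = (n : ℂ) + 2 := by push_cast; ring
  rw [h4]
  have h5 : (s : ℂ) ^ (2 * (n + 1) + 2) = (s : ℂ) ^ 4 * ((s : ℂ) ^ 2) ^ n := by
    rw [← pow_mul, ← pow_add]; congr 1; ring
  rw [h5, mul_pow]
  field_simp

theorem sum_tc {h : ℂ → ℂ} (hh : DifferentiableOn ℂ h (ball 0 1)) {z : ℂ} (hz : ‖z‖ < 1) :
    Summable (fun n : ℕ => ‖tc h (n + 1)‖ * ‖z‖ ^ n) := by
  set ρ : ℝ := (1 + ‖z‖) / 2 with hρ
  have h0 : 0 < ρ := by rw [hρ]; positivity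
  have h1 : ρ < 1 := by rw [hρ]; linarith
  have h2 : ‖z‖ ≤ ρ := by rw [hρ]; linarith
  have h3 : ((ρ : ℝ) : ℂ) ∈ ball (0 : ℂ) 1 := by
    rw [mem_ball_zero_iff, Complex.norm_real, Real.norm_of_nonneg h0.le]; exact h1
  have h4 := (hasSum_tc hh h3).summable.norm
  have h5 := (summable_nat_add_iff 1).2 h4
  refine Summable.of_nonneg_of_le (fun n => by positivity) (fun n => ?_) (h5.mul_left ρ⁻¹)
  rw [norm_mul, norm_pow, Complex.norm_real, Real.norm_of_nonneg h0.le, pow_succ]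
  have h6 : ‖z‖ ^ n ≤ ρ ^ n := pow_le_pow_left₀ (norm_nonneg _) h2 n
  have h7 : ρ⁻¹ * (‖tc h (n + 1)‖ * (ρ ^ n * ρ)) = ‖tc h (n + 1)‖ * ρ ^ n := by
    field_simp
  rw [h7]
  exact mul_le_mul_of_nonneg_left h6 (norm_nonneg _)

theorem tend (hP : Pack lam B) {h : ℂ → ℂ} (hh : DifferentiableOn ℂ h (ball 0 1))
    {z : ℂ} (hz : ‖z‖ < 1) :
    Tendsto (fun s : ℝ => LL lam h ((s : ℂ) ^ 2 * z)) (𝓝[<] 1) (𝓝 (LL lam h z)) := by
  unfold LL
  have hB0 : 0 ≤ B := by linarith [hP.le]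
  refine tendsto_tsum_of_dominated_convergence (bound := fun n => B * (‖tc h (n + 1)‖ * ‖z‖ ^ n))
    ((sum_tc hh hz).mul_left B) ?_ ?_
  · intro n
    have h1 : Continuous (fun s : ℝ => ((n : ℂ) + 1) * lam (n + 1) * tc h (n + 1) *
        ((s : ℂ) ^ 2 * z) ^ n) := by fun_prop
    have h2 := (h1.tendsto 1).mono_left (nhdsWithin_le_nhds (s := Iio 1))
    simpa using h2
  · have h1 : ∀ᶠ s : ℝ in 𝓝[<] 1, 0 < s ∧ s < 1 := by
      have h2 : ∀ᶠ s : ℝ in 𝓝[<] 1, 0 < s :=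
        nhdsWithin_le_nhds (lt_mem_nhds (by norm_num))
      filter_upwards [h2, self_mem_nhdsWithin] with s ha hb
      exact ⟨ha, hb⟩
    filter_upwards [h1] with s hs n
    rw [norm_mul, norm_mul, norm_mul, norm_n1, norm_pow, norm_mul, norm_pow, Complex.norm_real,
      Real.norm_of_nonneg hs.1.le]
    have h2 := lam_bound hP n
    have h3 : (s ^ 2 * ‖z‖) ^ n ≤ ‖z‖ ^ n := by
      apply pow_le_pow_left₀ (by positivity)
      have : s ^ 2 ≤ 1 := pow_le_one₀ hs.1.le hs.2.le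
      nlinarith [norm_nonneg z]
    calc ((n : ℝ) + 1) * ‖lam (n + 1)‖ * ‖tc h (n + 1)‖ * (s ^ 2 * ‖z‖) ^ n
        ≤ B * ‖tc h (n + 1)‖ * ‖z‖ ^ n := by
          apply mul_le_mul _ h3 (by positivity) (by positivity)
          exact mul_le_mul_of_nonneg_right h2 (norm_nonneg _)
      _ = B * (‖tc h (n + 1)‖ * ‖z‖ ^ n) := by ring

end AreaD'

open AreaD' in
theorem prfAreaD (hO : Orth) : AreaD := by
  intro lam B hP h hh z hz
  have hz1 : ‖z‖ < 1 := mem_ball_zero_iff.1 hz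
  have hB0 : 0 ≤ B := by linarith [hP.le]
  set I : ENNReal := ∫⁻ ζ in ball (0 : ℂ) 1, ENNReal.ofReal ‖h ζ‖ with hI
  have key : ∀ s : ℝ, 0 < s → s < 1 →
      ENNReal.ofReal (Real.pi * s ^ 4 * ‖LL lam h ((s : ℂ) ^ 2 * z)‖) ≤ ENNReal.ofReal B * I := by
    intro s hs0 hs1
    have h1 := main hO hP hh hz1 hs0 hs1
    have h2 : Real.pi * s ^ 4 * ‖LL lam h ((s : ℂ) ^ 2 * z)‖ =
        ‖∫ ζ in ball (0 : ℂ) s, h ζ * ∑' n : ℕ, T lam z n ζ‖ := by
      rw [h1, norm_mul, norm_mul, norm_pow, Complex.norm_real, Complex.norm_real,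
        Real.norm_of_nonneg Real.pi_pos.le, Real.norm_of_nonneg hs0.le]
    rw [h2, ofReal_norm]
    refine (enorm_integral_le_lintegral_enorm _).trans ?_
    have h3 : ∫⁻ ζ in ball (0 : ℂ) s, ‖h ζ * ∑' n : ℕ, T lam z n ζ‖ₑ ≤
        ∫⁻ ζ in ball (0 : ℂ) s, ENNReal.ofReal B * ENNReal.ofReal ‖h ζ‖ := by
      apply setLIntegral_mono' measurableSet_ball
      intro ζ hζ
      have h4 : ‖ζ‖ < 1 := by
        have := mem_ball_zero_iff.1 hζ
        linarith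
      have h5 := tsum_T_bound hP hz1 h4
      rw [← ofReal_norm, ← ENNReal.ofReal_mul hB0, norm_mul, mul_comm]
      exact ENNReal.ofReal_le_ofReal (mul_le_mul_of_nonneg_right h5 (norm_nonneg _))
    refine h3.trans ?_
    rw [lintegral_const_mul' _ _ ENNReal.ofReal_ne_top]
    exact mul_le_mul_right (lintegral_mono_set (ball_subset_ball hs1.le)) _
  have hlim : Tendsto (fun s : ℝ => ENNReal.ofReal (Real.pi * s ^ 4 * ‖LL lam h ((s : ℂ) ^ 2 * z)‖))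
      (𝓝[<] 1) (𝓝 (ENNReal.ofReal (Real.pi * 1 ^ 4 * ‖LL lam h z‖))) := by
    apply ENNReal.tendsto_ofReal
    apply Tendsto.mul
    · exact ((continuous_const.mul (continuous_pow 4)).tendsto 1).mono_left
        (nhdsWithin_le_nhds (s := Iio 1))
    · exact (tend hP hh hz1).norm
  have hle : ENNReal.ofReal (Real.pi * 1 ^ 4 * ‖LL lam h z‖) ≤ ENNReal.ofReal B * I := by
    refine le_of_tendsto hlim ?_
    have h2 : ∀ᶠ s : ℝ in 𝓝[<] 1, 0 < s := nhdsWithin_le_nhds (lt_mem_nhds (by norm_num))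
    filter_upwards [h2, self_mem_nhdsWithin] with s ha hb
    exact key s ha hb
  have h6 : ENNReal.ofReal ‖LL lam h z‖ =
      ENNReal.ofReal (Real.pi⁻¹) * ENNReal.ofReal (Real.pi * 1 ^ 4 * ‖LL lam h z‖) := by
    rw [← ENNReal.ofReal_mul (by positivity)]
    congr 1
    field_simp
  rw [h6]
  have h7 : ENNReal.ofReal (B / Real.pi) = ENNReal.ofReal (Real.pi⁻¹) * ENNReal.ofReal B := by
    rw [← ENNReal.ofReal_mul (by positivity)]
    congr 1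
    field_simp
  rw [h7, mul_assoc (ENNReal.ofReal Real.pi⁻¹) (ENNReal.ofReal B) I]
  exact mul_le_mul_right hle _

end Pool.Agent.MultS.Lip
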