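import Pool.Agent.Work.MP_b17785_an.Lip.Stmts

/-!
# The Lipschitz dichotomy for multipliers of `S`: the uniform version, statements

UNIFORM THEOREM: for every `η > 0` there is `X` such that `|(T f)'| ≤ X + 1` for all `f ∈ S` and ALL
multipliers `lam` with `|lam 2| ≤ 1 - η`; and `|lam 2| ≤ 1` for every multiplier, with equality only
for the rotations.  The method: the landed proof of the dichotomy (files E1, F1, F2, W2, Assembly)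
is quantitative once `(1-|z|) Re P` is small near the boundary uniformly in the multiplier; this
follows from the compactness of the set of multipliers and the monotonicity of
`(1-r)/(1+r) Re P(r x)` (Harnack).
-/

set_option autoImplicit false

open Complex Metric Set Filter Topology MeasureTheory

namespace Pool.Agent.MultS.Lip

/-- [U1] Uniform form of `Grow`.  Copy the proof of `prfGrow` (E1.lean); the only constant that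
depends on `h` there is `M = max |h'|` on `|z| ≤ r1`, `r1 = max r0 (1/2)`; replace it by
`M = 6/(1-r1)^3`: `‖deriv h z‖ ≤ ∑ (k+1) ‖tc h (k+1)‖ ‖z‖^k ≤ ∑ 3 (k+1)² ‖z‖^k ≤ 6/(1-‖z‖)^3`
(`prfSer`, `littAll`; `(k+1)² ≤ 2 C(k+2,2)` and `∑ C(k+2,2) r^k = (1-r)^(-3)`). -/
def GrowU : Prop :=
  ∀ β r0 : ℝ, 0 < β → 0 < r0 → r0 < 1 → ∃ C : ℝ, ∀ h : ℂ → ℂ, Sc h →
    (∀ z ∈ ball (0 : ℂ) 1, r0 ≤ ‖z‖ → (PP h z).re ≤ β / 2 / (1 - ‖z‖)) →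
    ∀ z ∈ ball (0 : ℂ) 1, ‖deriv h z‖ ≤ C * (1 - ‖z‖) ^ (-β)

/-- [U2] Uniform form of `Low`.  Copy the proof of `prfLow` (F1.lean, with `repAll : Rep` from
All.lean and `prfHDer prfSer : HDer`); the constant `c` of `F1.lower0` is replaced by `1/4`:
`JJ lam 0 0 = 1`, and for `z ≠ 0`, `‖JJ lam 0 z‖ = ‖h z‖/‖z‖ ≥ 1/(1+‖z‖)² ≥ 1/4` by `growL`
(GrowL.lean). If `C < 1` the hypothesis is impossible at `z = 0` (`h' 0 = 1`). -/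
def LowU : Prop :=
  ∀ C : ℝ, ∃ p c : ℝ, 0 < p ∧ p ≤ 1 / 8 ∧ 0 < c ∧ ∀ (lam : ℕ → ℂ) (h : ℂ → ℂ), Gen lam h →
    (∀ z ∈ ball (0 : ℂ) 1, ‖deriv h z‖ ≤ C * (1 - ‖z‖) ^ (-(1 / 8 : ℝ))) →
    ∀ z ∈ ball (0 : ℂ) 1, c ≤ ‖JJ lam ((-p : ℝ) : ℂ) z‖

/-- [U3] Uniform form of `Start`: the proof of `prfStart` (F2.lean) with the quantifiers in this
order (the constant there depends only on `C` and `s`; `repAll : Rep`). -/
def StartU : Prop :=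
  ∀ C s : ℝ, 0 ≤ s → s ≤ 3 / 4 → ∃ C' : ℝ, ∀ (lam : ℕ → ℂ) (h : ℂ → ℂ), Gen lam h →
    (∀ z ∈ ball (0 : ℂ) 1, ‖deriv h z‖ ≤ C * (1 - ‖z‖) ^ (-(1 / 8 : ℝ))) →
    ∀ z ∈ ball (0 : ℂ) 1, ‖JJ lam ((-s : ℝ) : ℂ) z‖ ≤ C'

/-- [U4] Uniform form of `Climb`: the proof of `prfClimb` (W2.lean, with `prfPoly : Poly`), all
constants uniform for `lam ∈ Λ`. -/
def ClimbU : Prop :=
  ∀ (Λ : Set (ℕ → ℂ)) (p c : ℝ), 0 < p → p ≤ 1 / 8 → 0 < c →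
    (∀ lam ∈ Λ, ∀ (s : ℝ) (σ : ℂ), p < s → s ≤ 2 → σ ≠ 0 → |arg σ| ≤ Real.pi / 3 →
      ∀ z ∈ ball (0 : ℂ) 1, NN lam p s σ z ≠ 0) →
    (∀ lam ∈ Λ, ∀ z ∈ ball (0 : ℂ) 1, c ≤ ‖JJ lam ((-p : ℝ) : ℂ) z‖) →
    (∀ s : ℝ, 0 ≤ s → s ≤ 3 / 4 →
      ∃ C : ℝ, ∀ lam ∈ Λ, ∀ z ∈ ball (0 : ℂ) 1, ‖JJ lam ((-s : ℝ) : ℂ) z‖ ≤ C) →
    ∀ s : ℝ, 0 ≤ s → s ≤ 2 →
      ∃ C : ℝ, ∀ lam ∈ Λ, ∀ z ∈ ball (0 : ℂ) 1, ‖JJ lam ((-s : ℝ) : ℂ) z‖ ≤ C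

/-- `S` is closed under coefficientwise limits (this is `LipLim` of StmtsE, item E1). -/
def LimS : Prop :=
  ∀ (F : ℕ → ℂ → ℂ) (c : ℕ → ℂ), (∀ k : ℕ, Sc (F k)) →
    (∀ n : ℕ, Tendsto (fun k : ℕ => tc (F k) n) atTop (𝓝 (c n))) →
    ∃ f : ℂ → ℂ, Sc f ∧ ∀ n : ℕ, tc f n = c n

/-- [U5] Compactness of the set of multipliers (uses LimS).  `‖L k n‖ ≤ 3n` for `n ≥ 1`
(`GenEx`: `prfGenEx testQAll`, All.lean: `L k n = tc h n`, `h ∈ S`, `littAll`).  With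
`L' k n = L k n` for `n ≥ 1`, `L' k 0 = 0`, the sequence `L'` is in the compact set
`pi univ (closedBall 0 (3n))` (`isCompact_univ_pi`, `IsCompact.tendsto_subseq`).  The limit `lam`
is a multiplier: for `f ∈ S` there are `G k ∈ S` with `tc (G k) n = L (φ k) n * tc f n` (`n ≥ 1`),
`tc (G k) 0 = 0`, so the coefficients converge to `lam n * tc f n` and LimS gives `g`. -/
def SeqM : Prop :=
  ∀ L : ℕ → ℕ → ℂ, (∀ k, IsMult (L k)) → ∃ (φ : ℕ → ℕ) (lam : ℕ → ℂ), StrictMono φ ∧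
    IsMult lam ∧ ∀ n : ℕ, 1 ≤ n → Tendsto (fun k => L (φ k) n) atTop (𝓝 (lam n))

/-- [U6] Convergence of `P`.  By `prfSer`, `deriv (H k) z = ∑ (n+1) L k (n+1) z^n` and
`z deriv (deriv (H k)) z = ∑ n (n+1) L k (n+1) z^n`; with `z = r x_k → r y`, dominated convergence
(`tendsto_tsum_of_dominated_convergence`, bound `3 (n+1)^3 r^n`, `‖L k (n+1)‖ ≤ 3 (n+1)` by
`littAll`) gives convergence of both, and `deriv h (r y) ≠ 0` (`prfDerNe`). -/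
def ConvP : Prop :=
  ∀ (L : ℕ → ℕ → ℂ) (lam : ℕ → ℂ) (H : ℕ → ℂ → ℂ) (h : ℂ → ℂ) (x : ℕ → ℂ) (y : ℂ) (r : ℝ),
    (∀ k, Gen (L k) (H k)) → Gen lam h →
    (∀ n : ℕ, 1 ≤ n → Tendsto (fun k => L k n) atTop (𝓝 (lam n))) →
    (∀ k, ‖x k‖ = 1) → Tendsto x atTop (𝓝 y) → 0 < r → r < 1 →
    Tendsto (fun k => PP (H k) ((r : ℂ) * x k)) atTop (𝓝 (PP h ((r : ℂ) * y)))

/-- [U7] The non-uniform statement: this is the first half of the proof of `mainJ` (Assembly.lean,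
the line `have hun := c5 _ hcar hrad`), with the same hypotheses instantiated as in All.lean
(`finalAll`). -/
def UnifOne : Prop :=
  ∀ (lam : ℕ → ℂ) (h : ℂ → ℂ), IsMult lam → Gen lam h →
    ¬ (∃ x : ℂ, ‖x‖ = 1 ∧ ∀ n : ℕ, 1 ≤ n → lam n = x ^ (n - 1)) →
    ∀ κ : ℝ, 0 < κ → ∃ r0 : ℝ, 0 < r0 ∧ r0 < 1 ∧
      ∀ z ∈ ball (0 : ℂ) 1, r0 ≤ ‖z‖ → (PP h z).re ≤ κ / (1 - ‖z‖)

/-- [U8] The uniform statement (uses SeqM, ConvP, UnifOne).  Suppose it fails for `η, κ`: for every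
`k` (with `r0 = 1 - 1/(k+2)`) there are `L k`, `H k`, `z k` with `r0 ≤ ‖z k‖ < 1` and
`Re PP (H k) (z k) > κ/(1-‖z k‖)`.  `x k = z k/‖z k‖`.  By SeqM pass to a subsequence with
`L k → lam` (a multiplier, `‖lam 2‖ ≤ 1 - η < 1`, so not a rotation: `lam 2 = x` would have modulus
`1`), and `x k → y` (the circle is compact); `h` a generating function of `lam` (GenEx).  By
UnifOne with `κ/8` choose `r = r0`: `Re PP h (r y) ≤ κ/8/(1-r)`.  For large `k`, `r ≤ ‖z k‖`, and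
by `c5_mono prfHar` (C5.lean; `PP (H k)` is in `Car` by `prfPPan` and `prfConv prfTestA prfSer`)
`(1-r)(1+s) Re PP(H k)(r x_k) ≥ (1+r)(1-s) Re PP (H k)(s x_k) > (1+r) κ` with `s = ‖z k‖`, so
`Re PP (H k)(r x_k) ≥ (κ/2)/(1-r)`; the limit (ConvP) gives `Re PP h (r y) ≥ (κ/2)/(1-r)`,
contradiction. -/
def UnifM : Prop :=
  ∀ η κ : ℝ, 0 < η → 0 < κ → ∃ r0 : ℝ, 0 < r0 ∧ r0 < 1 ∧ ∀ (lam : ℕ → ℂ) (h : ℂ → ℂ),
    IsMult lam → Gen lam h → ‖lam 2‖ ≤ 1 - η →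
    ∀ z ∈ ball (0 : ℂ) 1, r0 ≤ ‖z‖ → (PP h z).re ≤ κ / (1 - ‖z‖)

/-- [U9] Uniform boundedness of `∑ n² lam n z^n` (uses UnifM, GrowU, LowU, StartU, ClimbU).
`κ = 1/16`, `β = 1/8` in GrowU; then LowU, StartU, ClimbU with `Λ` = the set of all multipliers
with `‖lam 2‖ ≤ 1 - η`; `NN ≠ 0` as in mainJ / All.lean: `prfNonN (prfTestN prfStrip prfDerNe
prfPowCoef) prfSer (prfGenEx testQAll) (prfSerJ prfSer)`; finally `prfFin2 (prfSerJ prfSer)` with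
`s = 1` and `s = 2` (see `mainMult`, Final.lean); `prfLitMult`. -/
def BndU : Prop :=
  ∀ η : ℝ, 0 < η → ∃ C : ℝ, ∀ lam : ℕ → ℂ, Lit Sc lam → ‖lam 2‖ ≤ 1 - η →
    ∀ z ∈ ball (0 : ℂ) 1, Summable (fun n : ℕ => (n : ℂ) ^ 2 * lam n * z ^ n) ∧
      ‖∑' n : ℕ, (n : ℂ) ^ 2 * lam n * z ^ n‖ ≤ C

/-- [U10] Quantitative Parseval inequality.  For `0 < r < 1`: `∑_{n<N} ‖a n‖² r^(2n) ≤ C²` (see
the proof of `prfPars`, G4.lean: polynomials approximate the power series uniformly on `|z| = r`),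
then `r → 1`. -/
def ParsQ : Prop :=
  ∀ (a : ℕ → ℂ) (C : ℝ), (∀ z ∈ ball (0 : ℂ) 1, Summable (fun n : ℕ => a n * z ^ n) ∧
    ‖∑' n : ℕ, a n * z ^ n‖ ≤ C) → ∀ N : ℕ, ∑ n ∈ Finset.range N, ‖a n‖ ^ 2 ≤ C ^ 2

/-- [U11] The pack with a constant that depends only on `C` (uses ParsQ): the proof of `PackEx`
(item A11) with `∑ (n+1) ‖lam (n+1)‖ ≤ (1/2) ∑ (n+1)⁴ ‖lam (n+1)‖² + (1/2) ∑ (n+1)^(-2) ≤
C²/2 + 1`. (`n |lam n| ≤ (n⁴ |lam n|² + n^(-2))/2`.) -/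
def PackU : Prop :=
  ∀ C : ℝ, ∃ B : ℝ, ∀ lam : ℕ → ℂ, Lit Sc lam →
    (∀ z ∈ ball (0 : ℂ) 1, Summable (fun n : ℕ => (n : ℂ) ^ 2 * lam n * z ^ n) ∧
      ‖∑' n : ℕ, (n : ℂ) ^ 2 * lam n * z ^ n‖ ≤ C) → Pack lam B

/-- [U12] The second coefficient.  `P = PP h` is in `Car` with `P 0 = 1` (`prfPPan`, `prfConv
prfTestA prfSer`) and `P' 0 = 2 lam 2` (`P = 1 + z h''/h'`, `h' 0 = 1`, `h'' 0 = 2 tc h 2`), so
`‖lam 2‖ ≤ 1` by the last inequality of `Har` (`prfHar`, C1.lean) at `w = 0`.  Equality: `ω =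
(P-1)/(P+1)` maps the disk into itself (it is `< 1` because `Re P > 0`), `ω 0 = 0`, `ω' 0 = lam 2`,
so `ω z = lam 2 * z` by the equality case of the Schwarz lemma
(`Complex.affine_of_mapsTo_ball_of_exists_norm_dslope_eq_div`), `PP h z = (1 + a z)/(1 - a z)`,
`a = lam 2`.  With `x = a⁻¹`, `prfRot` and `prfRotOne` give `x^(n-1) lam n = 1`. -/
def RotTwo : Prop :=
  ∀ (lam : ℕ → ℂ) (h : ℂ → ℂ), IsMult lam → Gen lam h →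
    ‖lam 2‖ ≤ 1 ∧ (‖lam 2‖ = 1 → ∀ n : ℕ, 1 ≤ n → lam n = lam 2 ^ (n - 1))

end Pool.Agent.MultS.Lip
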