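import Pool.Agent.Work.MP_b17785_an.Lip.StmtsE

/-!
# Coefficient multipliers of the class S, Lip, item E12: a connected set with a small shadow has a small set of
directions
-/

set_option autoImplicit false

open Complex Metric Set Filter Topology MeasureTheory
open scoped ENNReal ComplexConjugate

namespace Pool.Agent.MultS

namespace LipProjX

theorem exp_sub_exp_le (a b : ℝ) : ‖exp ((a : ℂ) * I) - exp ((b : ℂ) * I)‖ ≤ |a - b| := by
  have h1 : exp ((a : ℂ) * I) - exp ((b : ℂ) * I)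
      = exp ((b : ℂ) * I) * (exp (I * ((a - b : ℝ) : ℂ)) - 1) := by
    rw [mul_sub, ← Complex.exp_add, mul_one]
    congr 2
    push_cast
    ring
  rw [h1, norm_mul, Complex.norm_exp_ofReal_mul_I, one_mul]
  exact Real.norm_exp_I_mul_ofReal_sub_one_le

/-- the distance from a fixed point to the point of the unit circle in the direction `θ` -/
noncomputable def g (c : ℂ) (θ : ℝ) : ℝ := ‖exp ((θ : ℂ) * I) - c‖

theorem lip_g (c : ℂ) : LipschitzWith 1 (g c) := by
  refine LipschitzWith.of_dist_le_mul fun a b => ?_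
  rw [NNReal.coe_one, one_mul, Real.dist_eq, Real.dist_eq]
  unfold g
  refine (abs_norm_sub_norm_le _ _).trans ?_
  have h : exp ((a : ℂ) * I) - c - (exp ((b : ℂ) * I) - c)
      = exp ((a : ℂ) * I) - exp ((b : ℂ) * I) := by ring
  rw [h]
  exact exp_sub_exp_le a b

theorem vol_image_le (c : ℂ) (s : Set ℝ) : volume (g c '' s) ≤ volume s := by
  have h := (lip_g c).hausdorffMeasure_image_le (d := 1) zero_le_one s
  rw [MeasureTheory.hausdorffMeasure_real] at h
  simpa using h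

end LipProjX

open LipProjX

theorem prfLipProj : LipProj := by
  intro E l hE h0 hl hvol z hz w hw
  set c : ℂ := w / ((‖w‖ : ℝ) : ℂ) with hc
  set Sh : Set ℝ := {θ : ℝ | θ ∈ Ioo (-Real.pi) Real.pi ∧
      ∃ r : ℝ, 0 < r ∧ (r : ℂ) * exp ((θ : ℂ) * I) ∈ E} with hSh
  have hne : ∀ y ∈ E, y ≠ 0 := fun y hy h => h0 (h ▸ hy)
  -- the function `u`
  have hcont : ContinuousOn (fun y : ℂ => ‖y / ((‖y‖ : ℝ) : ℂ) - c‖) E := by
    refine ContinuousOn.norm ?_
    refine ContinuousOn.sub ?_ continuousOn_const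
    refine ContinuousOn.div continuousOn_id ?_ ?_
    · exact (Complex.continuous_ofReal.comp continuous_norm).continuousOn
    · intro y hy h
      have : ‖y‖ = 0 := by exact_mod_cast h
      exact hne y hy (norm_eq_zero.1 this)
  have hIcc : Icc (‖w / ((‖w‖ : ℝ) : ℂ) - c‖) (‖z / ((‖z‖ : ℝ) : ℂ) - c‖) ⊆
      (fun y : ℂ => ‖y / ((‖y‖ : ℝ) : ℂ) - c‖) '' E :=
    hE.intermediate_value hw hz hcont
  have hw0 : ‖w / ((‖w‖ : ℝ) : ℂ) - c‖ = 0 := by rw [hc, sub_self, norm_zero]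
  rw [hw0] at hIcc
  set d : ℝ := ‖z / ((‖z‖ : ℝ) : ℂ) - c‖ with hd
  have hsub : Icc 0 d ⊆ {g c Real.pi} ∪ g c '' Sh := by
    intro t ht
    obtain ⟨y, hy, rfl⟩ := hIcc ht
    have hy0 : y ≠ 0 := hne y hy
    have hyn : 0 < ‖y‖ := norm_pos_iff.2 hy0
    have hyn' : ((‖y‖ : ℝ) : ℂ) ≠ 0 := by exact_mod_cast hyn.ne'
    have hpol : y = ((‖y‖ : ℝ) : ℂ) * exp ((y.arg : ℂ) * I) := (Complex.norm_mul_exp_arg_mul_I y).symm
    have hg : ‖y / ((‖y‖ : ℝ) : ℂ) - c‖ = g c y.arg := by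
      unfold g
      congr 2
      rw [div_eq_iff hyn', mul_comm]
      exact hpol
    have harg := Complex.arg_mem_Ioc y
    rcases eq_or_lt_of_le harg.2 with h | h
    · left
      show ‖y / ((‖y‖ : ℝ) : ℂ) - c‖ ∈ ({g c Real.pi} : Set ℝ)
      rw [hg, h]
      exact mem_singleton _
    · right
      refine ⟨y.arg, ⟨⟨harg.1, h⟩, ‖y‖, hyn, ?_⟩, hg.symm⟩
      rw [← hpol]
      exact hy
  have h1 : ENNReal.ofReal d ≤ ENNReal.ofReal l := by
    calc ENNReal.ofReal d = volume (Icc 0 d) := by rw [Real.volume_Icc, sub_zero]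
      _ ≤ volume ({g c Real.pi} ∪ g c '' Sh) := measure_mono hsub
      _ ≤ volume {g c Real.pi} + volume (g c '' Sh) := measure_union_le _ _
      _ = volume (g c '' Sh) := by rw [Real.volume_singleton, zero_add]
      _ ≤ volume Sh := vol_image_le c Sh
      _ ≤ ENNReal.ofReal l := hvol
  exact (ENNReal.ofReal_le_ofReal_iff hl).1 h1

end Pool.Agent.MultS
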