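import Pool.Agent.Work.MP_b17785_an.Lip.Stmts

/-!
# The half plane theorem: assembly
-/

set_option autoImplicit false

open Complex Metric Set Filter Topology MeasureTheory

namespace Pool.Agent.MultS.Lip

namespace HKm'

theorem zero_mem_Om : (0 : ℂ) ∈ Om := by
  simp only [Om, mem_ofPred_eq, zero_re]
  norm_num

theorem isOpen_Hp : IsOpen Hp := isOpen_lt continuous_const continuous_re

theorem isOpen_Om : IsOpen Om := isOpen_lt continuous_const continuous_re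

/-- `m w = w + a0 phi w`. -/
noncomputable def mm (a0 : ℝ) (w : ℂ) : ℂ := w + a0 * phi w

variable (hC : Cay)
include hC

theorem phi_norm {w : ℂ} (hw : w ∈ Hp) : ‖phi w‖ < 1 := by
  simpa using (hC.2.1 w hw).1

theorem phi_re {w : ℂ} (hw : w ∈ Hp) : -1 < (phi w).re := by
  have h1 := phi_norm hC hw
  have h2 := abs_re_le_norm (phi w)
  rw [abs_le] at h2
  linarith [h2.1]

theorem mm_re {a0 : ℝ} (ha : 0 < a0) {w : ℂ} (hw : w ∈ Hp) : -a0 < (mm a0 w).re := by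
  have h1 := phi_re hC hw
  have hw' : 0 < w.re := hw
  simp only [mm, add_re, re_ofReal_mul]
  nlinarith

theorem mm_norm {a0 : ℝ} (ha : 0 < a0) {w : ℂ} (hw : w ∈ Hp) :
    ‖mm a0 w‖ ≤ (1 + a0) * ‖w + 1‖ := by
  have h1 := phi_norm hC hw
  have h2 : 1 < ‖w + 1‖ := (hC.2.1 w hw).2.2.2.2
  have h3 : ‖w‖ ≤ ‖w + 1‖ := by
    have hw' : 0 < w.re := hw
    refine (sq_le_sq₀ (norm_nonneg _) (norm_nonneg _)).1 ?_
    rw [← normSq_eq_norm_sq, ← normSq_eq_norm_sq, normSq_apply, normSq_apply]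
    simp only [add_re, one_re, add_im, one_im, add_zero]
    nlinarith
  calc ‖mm a0 w‖ ≤ ‖w‖ + ‖(a0 : ℂ) * phi w‖ := norm_add_le _ _
    _ ≤ ‖w + 1‖ + a0 * 1 := by
        gcongr
        rw [norm_mul, norm_real, Real.norm_of_nonneg ha.le]
        gcongr
    _ ≤ (1 + a0) * ‖w + 1‖ := by nlinarith

theorem mm_psi {a0 : ℝ} {ζ : ℂ} (hζ : ζ ∈ ball (0 : ℂ) 1) : mm a0 (psi ζ) = psi ζ + a0 * ζ := by
  rw [mm, (hC.1 ζ hζ).2.1]

theorem mm_diff (a0 : ℝ) : DifferentiableOn ℂ (mm a0) Hp :=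
  differentiableOn_id.add ((differentiableOn_const _).mul hC.2.2.2.1)

theorem mm_div_mem {a0 V : ℝ} (ha : 0 < a0) (hV : 10 * a0 ≤ V) {w : ℂ} (hw : w ∈ Hp) :
    mm a0 w / (V : ℂ) ∈ Om := by
  have h1 := mm_re hC ha hw
  have hV0 : 0 < V := by linarith
  simp only [Om, mem_ofPred_eq, div_ofReal_re]
  rw [lt_div_iff₀ hV0]
  nlinarith

theorem shift_mem {a0 x : ℝ} (ha : 0 < a0) (hx : a0 ≤ x) {w : ℂ} (hw : w ∈ Hp) :
    (x : ℂ) + mm a0 w ∈ Hp := by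
  have h1 := mm_re hC ha hw
  simp only [Hp, mem_ofPred_eq, add_re, ofReal_re]
  linarith

omit hC in
theorem hook_mem {c C V : ℝ} (hV : 0 < V) (hc : c + 1 ≤ C) {g : ℂ → ℂ}
    (hdec : ∀ v ∈ Om, ‖g v - v‖ ≤ c / (1 + ‖v‖) ^ 3) {v : ℂ} (hv : v ∈ Om) :
    (C : ℂ) * V + V * g v ∈ Hp := by
  have h0 := hdec v hv
  have hc0 : 0 ≤ c := by
    by_contra hneg
    push Not at hneg
    have : c / (1 + ‖v‖) ^ 3 < 0 := div_neg_of_neg_of_pos hneg (by positivity)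
    linarith [norm_nonneg (g v - v)]
  have h1 : c / (1 + ‖v‖) ^ 3 ≤ c := by
    refine div_le_self hc0 ?_
    have : (1 : ℝ) ≤ 1 + ‖v‖ := by linarith [norm_nonneg v]
    exact one_le_pow₀ this
  have h2 := abs_re_le_norm (g v - v)
  rw [abs_le, sub_re] at h2
  have hv' : -(1 / 10 : ℝ) < v.re := hv
  have h3 : 0 < C + (g v).re := by linarith [h2.1]
  simp only [Hp, mem_ofPred_eq, add_re]
  rw [← ofReal_mul, ofReal_re, re_ofReal_mul]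
  nlinarith

omit hC in
theorem rpow_aux {x y : ℝ} (hx : 0 ≤ x) (hy : 1 ≤ y) {a : ℝ} (ha : 0 ≤ a) (h : x ≤ a * y) :
    x ≤ a * y ^ (3 / 2 : ℝ) ∧ x ^ (3 / 2 : ℝ) ≤ a ^ (3 / 2 : ℝ) * y ^ (3 / 2 : ℝ) := by
  constructor
  · refine h.trans (mul_le_mul_of_nonneg_left ?_ ha)
    calc y = y ^ (1 : ℝ) := (Real.rpow_one y).symm
      _ ≤ y ^ (3 / 2 : ℝ) := Real.rpow_le_rpow_of_exponent_le hy (by norm_num)
  · rw [← Real.mul_rpow ha (by linarith)]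
    exact Real.rpow_le_rpow hx h (by norm_num)

/-- The error term in terms of `LL`. -/
theorem errLL (hL : Lin) {CJ : ℝ} 
    (hJ : ∀ (lam : ℕ → ℂ) (B : ℝ), Pack lam B → ∀ e : ℂ → ℂ, DifferentiableOn ℂ e Hp →
    ∀ M : ℝ, 0 ≤ M →
    (∀ w ∈ Hp, ‖e w‖ ≤ M * (‖w + 1‖ ^ (3 / 2 : ℝ) + ‖w + 1‖ ^ 2 / (1 + w.re))) →
    ∀ z ∈ ball (0 : ℂ) 1, ‖LL lam (fun ζ => e (psi ζ)) z‖ ≤ CJ * B * M)
    {lam : ℕ → ℂ} {B : ℝ} (hP : Pack lam B) {z : ℂ} (hz : z ∈ ball (0 : ℂ) 1) {F : ℂ → ℂ}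
    (hFd : DifferentiableOn ℂ F Hp) {a0 V C c M ε : ℝ} (ha : 0 < a0) (hV : 10 * a0 ≤ V)
    (hM : 1 ≤ M) (hMC : M ≤ C) (hcC : c + 1 ≤ C) (hε : 0 ≤ ε) {y : ℂ} {g : ℂ → ℂ}
    (hgd : DifferentiableOn ℂ g Om) (hdec : ∀ v ∈ Om, ‖g v - v‖ ≤ c / (1 + ‖v‖) ^ 3)
    (hEr : ∀ u : ℂ, u / (V : ℂ) ∈ Om →
      ‖F ((C : ℂ) * V + V * g (u / V)) - F ((C : ℂ) * V + u) -
        (y - 1) * deriv F ((C : ℂ) * V) * u -
        (F ((C : ℂ) * V + V * g 0) - F ((C : ℂ) * V))‖ ≤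
      ‖deriv F ((C : ℂ) * V)‖ *
        ((ε + M / C) * ‖u‖ + M * V ^ (-(1 / 2) : ℝ) * ‖u‖ ^ (3 / 2 : ℝ))) :
    ‖LL lam (fun ζ => F ((C : ℂ) * V + V * g ((psi ζ + a0 * ζ) / V))) z -
      (LL lam (fun ζ => F ((C : ℂ) * V + (psi ζ + a0 * ζ))) z +
      (y - 1) * deriv F ((C : ℂ) * V) * LL lam (fun ζ => psi ζ + a0 * ζ) z)‖ ≤
    CJ * B * (‖deriv F ((C : ℂ) * V)‖ *
      ((ε + M / C) * (1 + a0) + M * V ^ (-(1 / 2) : ℝ) * (1 + a0) ^ (3 / 2 : ℝ))) := by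
  have hV0 : 0 < V := by linarith
  have hC0 : 1 ≤ C := hM.trans hMC
  have hCV : a0 ≤ C * V := by nlinarith
  set D : ℂ := deriv F ((C : ℂ) * V) with hD
  set cst : ℂ := F ((C : ℂ) * V + V * g 0) - F ((C : ℂ) * V) with hcst
  set e : ℂ → ℂ := fun w => F ((C : ℂ) * V + V * g (mm a0 w / V)) -
    F ((C : ℂ) * V + mm a0 w) - (y - 1) * D * mm a0 w - cst with he
  have hmm := mm_diff hC a0
  have hmaps : MapsTo (fun w => mm a0 w / (V : ℂ)) Hp Om := fun w hw => mm_div_mem hC ha hV hw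
  have hed1 : DifferentiableOn ℂ (fun w => F ((C : ℂ) * V + V * g (mm a0 w / V))) Hp := by
    refine hFd.comp (f := fun w => (C : ℂ) * V + V * g (mm a0 w / V)) ?_ ?_
    · refine (differentiableOn_const _).add ((differentiableOn_const _).mul ?_)
      exact hgd.comp (hmm.div_const _) hmaps
    · intro w hw
      exact hook_mem hV0 hcC hdec (hmaps hw)
  have hed2 : DifferentiableOn ℂ (fun w => F ((C : ℂ) * V + mm a0 w)) Hp := by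
    refine hFd.comp (f := fun w => (C : ℂ) * V + mm a0 w) ?_ ?_
    · exact (differentiableOn_const _).add hmm
    · intro w hw
      have := shift_mem hC ha hCV hw
      rwa [ofReal_mul] at this
  have hed : DifferentiableOn ℂ e Hp :=
    ((hed1.sub hed2).sub ((differentiableOn_const _).mul hmm)).sub (differentiableOn_const _)
  set Q : ℝ := ‖D‖ * ((ε + M / C) * (1 + a0) + M * V ^ (-(1 / 2) : ℝ) * (1 + a0) ^ (3 / 2 : ℝ))
    with hQ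
  have hQ0 : 0 ≤ Q := by positivity
  have hbd : ∀ w ∈ Hp, ‖e w‖ ≤ Q * (‖w + 1‖ ^ (3 / 2 : ℝ) + ‖w + 1‖ ^ 2 / (1 + w.re)) := by
    intro w hw
    have h1 : 1 < ‖w + 1‖ := (hC.2.1 w hw).2.2.2.2
    have hw' : 0 < w.re := hw
    obtain ⟨h2, h3⟩ := rpow_aux (norm_nonneg (mm a0 w)) h1.le (by positivity : 0 ≤ 1 + a0)
      (mm_norm hC ha hw)
    have h4 := hEr (mm a0 w) (mm_div_mem hC ha hV hw)
    have h5 : ‖e w‖ ≤ ‖D‖ * ((ε + M / C) * ((1 + a0) * ‖w + 1‖ ^ (3 / 2 : ℝ)) +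
        M * V ^ (-(1 / 2) : ℝ) * ((1 + a0) ^ (3 / 2 : ℝ) * ‖w + 1‖ ^ (3 / 2 : ℝ))) := by
      refine h4.trans ?_
      gcongr
    have h6 : ‖D‖ * ((ε + M / C) * ((1 + a0) * ‖w + 1‖ ^ (3 / 2 : ℝ)) +
        M * V ^ (-(1 / 2) : ℝ) * ((1 + a0) ^ (3 / 2 : ℝ) * ‖w + 1‖ ^ (3 / 2 : ℝ))) =
        Q * ‖w + 1‖ ^ (3 / 2 : ℝ) := by rw [hQ]; ring
    rw [h6] at h5
    refine h5.trans (mul_le_mul_of_nonneg_left ?_ hQ0)
    have : 0 ≤ ‖w + 1‖ ^ 2 / (1 + w.re) := by positivity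
    linarith
  have hfin := hJ lam B hP e hed Q hQ0 hbd z hz
  obtain ⟨-, hlin, hcon, -⟩ := hL lam B hP z hz
  have hpm : MapsTo psi (ball (0 : ℂ) 1) Hp := fun ζ hζ => (hC.1 ζ hζ).1
  set G1 : ℂ → ℂ := fun ζ => F ((C : ℂ) * V + V * g ((psi ζ + a0 * ζ) / V)) with hG1
  set G2 : ℂ → ℂ := fun ζ => F ((C : ℂ) * V + (psi ζ + a0 * ζ)) with hG2
  set G3 : ℂ → ℂ := fun ζ => psi ζ + a0 * ζ with hG3
  have hd1 : DifferentiableOn ℂ G1 (ball (0 : ℂ) 1) := by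
    have := hed1.comp hC.2.2.1 hpm
    refine this.congr fun ζ hζ => ?_
    simp only [Function.comp, hG1, mm_psi hC hζ]
  have hd2 : DifferentiableOn ℂ G2 (ball (0 : ℂ) 1) := by
    have := hed2.comp hC.2.2.1 hpm
    refine this.congr fun ζ hζ => ?_
    simp only [Function.comp, hG2, mm_psi hC hζ]
  have hd3 : DifferentiableOn ℂ G3 (ball (0 : ℂ) 1) :=
    hC.2.2.1.add ((differentiableOn_const _).mul differentiableOn_id)
  have hd4 : DifferentiableOn ℂ (fun ζ => (-1 : ℂ) * G2 ζ + (-((y - 1) * D)) * G3 ζ + 0)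
      (ball (0 : ℂ) 1) :=
    (((differentiableOn_const _).mul hd2).add ((differentiableOn_const _).mul hd3)).add
      (differentiableOn_const _)
  have heq : EqOn (fun ζ => e (psi ζ))
      (fun ζ => (1 : ℂ) * G1 ζ + 1 * ((-1 : ℂ) * G2 ζ + (-((y - 1) * D)) * G3 ζ + 0) + (-cst))
      (ball (0 : ℂ) 1) := by
    intro ζ hζ
    simp only [he, hG1, hG2, hG3, mm_psi hC hζ]
    ring
  rw [hcon _ _ heq, hlin _ _ 1 1 (-cst) hd1 hd4, hlin _ _ (-1) (-((y - 1) * D)) 0 hd2 hd3] at hfin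
  refine le_trans (le_of_eq ?_) hfin
  congr 1
  ring

/-- The start. -/
theorem startLL (hL : Lin) (hS : Start) {CJ : ℝ} 
    (hJ : ∀ (lam : ℕ → ℂ) (B : ℝ), Pack lam B → ∀ e : ℂ → ℂ, DifferentiableOn ℂ e Hp →
    ∀ M : ℝ, 0 ≤ M →
    (∀ w ∈ Hp, ‖e w‖ ≤ M * (‖w + 1‖ ^ (3 / 2 : ℝ) + ‖w + 1‖ ^ 2 / (1 + w.re))) →
    ∀ z ∈ ball (0 : ℂ) 1, ‖LL lam (fun ζ => e (psi ζ)) z‖ ≤ CJ * B * M)
    {K a0 x : ℝ} (hK : 0 ≤ K) (ha : 0 < a0) (hx : a0 ≤ x) :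
    ∃ Ms : ℝ, 0 ≤ Ms ∧ ∀ (lam : ℕ → ℂ) (B : ℝ), Pack lam B → ∀ F : ℂ → ℂ,
      DifferentiableOn ℂ F Hp → (∀ w ∈ Hp, ‖F w‖ ≤ K * ‖w + 1‖ ^ 2) → ∀ z ∈ ball (0 : ℂ) 1,
      ‖LL lam (fun ζ => F (x + (psi ζ + a0 * ζ))) z - LL lam (fun ζ => F (psi ζ)) z‖ ≤
        CJ * B * Ms := by
  obtain ⟨M, hM0, hM⟩ := hS K (x + a0) hK (by linarith)
  refine ⟨M, hM0, fun lam B hP F hFd hFg z hz => ?_⟩
  set e : ℂ → ℂ := fun w => F (x + mm a0 w) - F w with he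
  have hmm := mm_diff hC a0
  have hed2 : DifferentiableOn ℂ (fun w => F (x + mm a0 w)) Hp := by
    refine hFd.comp (f := fun w => (x : ℂ) + mm a0 w) ?_ ?_
    · exact (differentiableOn_const _).add hmm
    · intro w hw
      exact shift_mem hC ha hx hw
  have hed : DifferentiableOn ℂ e Hp := hed2.sub hFd
  have hbd : ∀ w ∈ Hp, ‖e w‖ ≤ M * (‖w + 1‖ ^ (3 / 2 : ℝ) + ‖w + 1‖ ^ 2 / (1 + w.re)) := by
    intro w hw
    have hw' : 0 < w.re := hw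
    have h1 := phi_norm hC hw
    have h2 := phi_re hC hw
    have h3 : (x : ℂ) + mm a0 w = w + (x + a0 * phi w) := by rw [mm]; ring
    have h4 := hM F hFd hFg w hw (x + a0 * phi w) (by
      rw [add_re, ofReal_re, re_ofReal_mul]; nlinarith) (by
      refine (norm_add_le _ _).trans ?_
      rw [norm_mul, norm_real, norm_real, Real.norm_of_nonneg ha.le,
        Real.norm_of_nonneg (by linarith)]
      nlinarith)
    simp only [he]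
    rw [h3]
    refine h4.trans (mul_le_mul_of_nonneg_left ?_ hM0)
    have : 0 ≤ ‖w + 1‖ ^ (3 / 2 : ℝ) := by positivity
    linarith
  have hfin := hJ lam B hP e hed M hM0 hbd z hz
  obtain ⟨-, hlin, hcon, -⟩ := hL lam B hP z hz
  have hpm : MapsTo psi (ball (0 : ℂ) 1) Hp := fun ζ hζ => (hC.1 ζ hζ).1
  set G1 : ℂ → ℂ := fun ζ => F (x + (psi ζ + a0 * ζ)) with hG1
  set G2 : ℂ → ℂ := fun ζ => F (psi ζ) with hG2
  have hd1 : DifferentiableOn ℂ G1 (ball (0 : ℂ) 1) := by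
    have := hed2.comp hC.2.2.1 hpm
    refine this.congr fun ζ hζ => ?_
    simp only [Function.comp, hG1, mm_psi hC hζ]
  have hd2 : DifferentiableOn ℂ G2 (ball (0 : ℂ) 1) := hFd.comp hC.2.2.1 hpm
  have heq : EqOn (fun ζ => e (psi ζ)) (fun ζ => (1 : ℂ) * G1 ζ + (-1 : ℂ) * G2 ζ + 0)
      (ball (0 : ℂ) 1) := by
    intro ζ hζ
    simp only [he, hG1, hG2, mm_psi hC hζ]
    ring
  rw [hcon _ _ heq, hlin _ _ 1 (-1) 0 hd1 hd2] at hfin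
  refine le_trans (le_of_eq ?_) hfin
  congr 1
  ring

end HKm'

open HKm' in
theorem prfHKm (hC : Cay) (hL : Lin) (hHa : HalfB) (hHo : Hol) (hKa : Kap) (hKT : KTr) (hG : G4)
    (hS : Start) (hHk : HkD) (hE : Err) (hB : BetC) (hU : Uni) (hZ : Zer) : HKm := by
  intro B K
  obtain ⟨CJ, hCJ, hJ⟩ := hHa
  obtain ⟨C1, hC1, hG4⟩ := hG
  obtain ⟨δ, hδ, hδ1, hHk⟩ := hHk
  by_cases hB1 : 1 ≤ B
  swap
  · exact ⟨0, fun lam hP => absurd hP.le hB1⟩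
  by_cases hK0 : 0 ≤ K
  swap
  · refine ⟨0, fun lam hP f hf hg => ?_⟩
    have h1 := hg 0 (mem_ball_self one_pos)
    exact absurd ((by positivity : (0 : ℝ) ≤ ‖f 0‖ * ‖1 - (0 : ℂ)‖ ^ 2).trans h1) hK0
  have hBp : 0 < B := by linarith
  obtain ⟨a0, ha0⟩ : ∃ a0 : ℝ, a0 = 2 * B + 2 := ⟨_, rfl⟩
  have ha : 0 < a0 := by linarith
  obtain ⟨T, hT⟩ : ∃ T : ℝ, T = CJ * B * (1 + a0) := ⟨_, rfl⟩
  have hT0 : 0 < T := by rw [hT]; positivity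
  obtain ⟨ε, hε0, hε1, hεT⟩ : ∃ ε : ℝ, 0 < ε ∧ ε ≤ 1 ∧ T * ε ≤ δ / 64 := by
    refine ⟨min 1 (δ / (64 * T)), by positivity, min_le_left _ _, ?_⟩
    calc T * min 1 (δ / (64 * T)) ≤ T * (δ / (64 * T)) := by gcongr; exact min_le_right _ _
      _ = δ / 64 := by field_simp
  obtain ⟨c, hc, hgs⟩ := hHk ε hε0
  obtain ⟨M, hM1, hErr⟩ := hE c hc
  obtain ⟨C, hMC, hcC, hCT⟩ : ∃ C : ℝ, M ≤ C ∧ c + 1 ≤ C ∧ T * (M / C) ≤ δ / 64 := by
    refine ⟨max (max M (c + 1)) (64 * T * M / δ), (le_max_left _ _).trans (le_max_left _ _),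
      (le_max_right _ _).trans (le_max_left _ _), ?_⟩
    have h1 : 64 * T * M / δ ≤ max (max M (c + 1)) (64 * T * M / δ) := le_max_right _ _
    have h2 : 0 < max (max M (c + 1)) (64 * T * M / δ) :=
      lt_of_lt_of_le (by positivity) h1
    rw [← mul_div_assoc, div_le_iff₀ h2]
    rw [div_le_iff₀ hδ] at h1
    nlinarith
  obtain ⟨V0, hV0, hV0T⟩ : ∃ V0 : ℝ, 10 * a0 ≤ V0 ∧ ∀ V : ℝ, V0 ≤ V →
      CJ * B * (M * V ^ (-(1 / 2) : ℝ) * (1 + a0) ^ (3 / 2 : ℝ)) ≤ δ / 64 := by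
    have h1 : Tendsto (fun V : ℝ => CJ * B * (M * V ^ (-(1 / 2) : ℝ) * (1 + a0) ^ (3 / 2 : ℝ)))
        atTop (𝓝 (CJ * B * (M * 0 * (1 + a0) ^ (3 / 2 : ℝ)))) := by
      refine Tendsto.const_mul _ (Tendsto.mul_const _ (Tendsto.const_mul _ ?_))
      exact tendsto_rpow_neg_atTop (by norm_num)
    rw [mul_zero, zero_mul, mul_zero] at h1
    have h2 := (h1.eventually (Iio_mem_nhds (by positivity : (0 : ℝ) < δ / 64)))
    obtain ⟨V1, hV1⟩ := eventually_atTop.1 h2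
    exact ⟨max V1 (10 * a0), le_max_right _ _, fun V hV =>
      (hV1 V ((le_max_left _ _).trans hV)).le⟩
  have hC0 : 1 ≤ C := hM1.trans hMC
  have hV0p : 0 < V0 := by linarith
  have hCV0 : a0 ≤ C * V0 := by nlinarith
  obtain ⟨Ms, hMs0, hMs⟩ := startLL hC hL hS hJ (K := K / 4) (a0 := a0) (x := C * V0)
    (by positivity) ha hCV0
  refine ⟨CJ * B * Ms + 2 * (4 * B + 2) * (C1 * (1 + C * V0) ^ 4), ?_⟩
  intro lam hP f hf hfg z hz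
  by_contra hcon
  push Not at hcon
  -- the function in the half plane
  obtain ⟨F, hF⟩ : ∃ F : ℂ → ℂ, F = fun w => f (phi w) := ⟨_, rfl⟩
  have hmaps : MapsTo phi Hp (ball (0 : ℂ) 1) := fun w hw => (hC.2.1 w hw).1
  have hFd : DifferentiableOn ℂ F Hp := by
    rw [hF]; exact hf.1.comp hC.2.2.2.1 hmaps
  have hFi : InjOn F Hp := by
    intro w₁ h₁ w₂ h₂ h
    simp only [hF] at h
    have h3 := hf.2.1 (hmaps h₁) (hmaps h₂) h
    rw [← (hC.2.1 w₁ h₁).2.1, ← (hC.2.1 w₂ h₂).2.1, h3]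
  have hFg : ∀ w ∈ Hp, ‖F w‖ ≤ K / 4 * ‖w + 1‖ ^ 2 := by
    intro w hw
    obtain ⟨h1, -, h2, -, h3⟩ := hC.2.1 w hw
    have h4 := hfg _ h1
    rw [h2, norm_div, div_pow] at h4
    have h5 : 0 < ‖w + 1‖ ^ 2 := by positivity
    rw [← mul_div_assoc, div_le_iff₀ h5] at h4
    simp only [hF]
    have h6 : ‖(2 : ℂ)‖ = 2 := by simp
    rw [h6] at h4
    linarith
  have hFpsi : EqOn (fun ζ => F (psi ζ)) f (ball (0 : ℂ) 1) := by
    intro ζ hζ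
    simp only [hF, (hC.1 ζ hζ).2.1]
  have h1Hp : (1 : ℂ) ∈ Hp := by simp [Hp]
  have hF1 : ‖deriv F 1‖ ≤ 1 := by
    have h1 : phi 1 = 0 := by simp [phi]
    have h2 : HasDerivAt f 1 (phi 1) := by
      rw [h1, ← hf.2.2.2]
      exact (hf.1.differentiableAt (isOpen_ball.mem_nhds (mem_ball_self one_pos))).hasDerivAt
    have h3 := h2.comp (1 : ℂ) (hC.2.2.2.2.2 1 h1Hp)
    have h4 : deriv F 1 = 1 * (2 / (1 + 1) ^ 2) := by
      rw [hF]; exact h3.deriv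
    rw [h4]; norm_num
  have hFne : ∀ V : ℝ, 0 < V → deriv F ((C : ℂ) * V) ≠ 0 := by
    intro V hV
    have := (hKT F hFd hFi (C * V) (by positivity)).1
    rwa [ofReal_mul] at this
  -- kappa
  have hκ := hKa lam B hP z hz
  rw [← ha0] at hκ
  obtain ⟨κ, hκd⟩ : ∃ κ : ℂ, κ = LL lam (fun ζ => psi ζ + (a0 : ℂ) * ζ) z := ⟨_, rfl⟩
  rw [← hκd] at hκ
  have hκ0 : κ ≠ 0 := by
    intro h; rw [h, norm_zero] at hκ; linarith [hκ.1]
  obtain ⟨β, hβd⟩ : ∃ β : ℝ → ℂ, β = fun V : ℝ =>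
      LL lam (fun ζ => F ((C : ℂ) * V + (psi ζ + a0 * ζ))) z / deriv F ((C : ℂ) * V) := ⟨_, rfl⟩
  obtain ⟨hβc, hβl⟩ := hB lam B hP z hz F hFd hFi a0 C ha hC0
  rw [← hβd] at hβc hβl
  rw [← hκd] at hβl
  -- the start
  have hbig : 2 * ‖κ‖ < ‖β V0‖ := by
    have h1 := hMs lam B hP F hFd hFg z hz
    rw [(hL lam B hP z hz).2.2.1 _ _ hFpsi] at h1
    have h2 : ‖LL lam f z‖ ≤ ‖LL lam (fun ζ => F (((C * V0 : ℝ) : ℂ) + (psi ζ + a0 * ζ))) z‖ +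
        CJ * B * Ms := by
      have := norm_sub_norm_le (LL lam f z)
        (LL lam (fun ζ => F (((C * V0 : ℝ) : ℂ) + (psi ζ + a0 * ζ))) z)
      rw [norm_sub_rev] at this
      linarith
    have h3 : ‖deriv F ((C : ℂ) * V0)‖ ≤ C1 * (1 + C * V0) ^ 4 := by
      have h4 := (hG4 F hFd hFi 1 one_pos).1 ((C : ℂ) * V0) (by
        rw [← ofReal_mul, ofReal_re]; nlinarith)
      rw [ofReal_one, div_one] at h4
      refine h4.trans ?_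
      have h5 : ‖(C : ℂ) * V0 - 1‖ ≤ C * V0 := by
        rw [← ofReal_mul, ← ofReal_one, ← ofReal_sub, norm_real, Real.norm_eq_abs, abs_le]
        constructor <;> nlinarith
      calc C1 * ‖deriv F 1‖ * (1 + ‖(C : ℂ) * V0 - 1‖) ^ 4
          ≤ C1 * 1 * (1 + C * V0) ^ 4 := by gcongr
        _ = C1 * (1 + C * V0) ^ 4 := by ring
    have h6 : β V0 = LL lam (fun ζ => F (((C * V0 : ℝ) : ℂ) + (psi ζ + a0 * ζ))) z /
        deriv F ((C : ℂ) * V0) := by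
      rw [hβd, ofReal_mul]
    have h7 : 0 < ‖deriv F ((C : ℂ) * V0)‖ := norm_pos_iff.2 (hFne V0 hV0p)
    rw [h6, norm_div, lt_div_iff₀ h7]
    calc 2 * ‖κ‖ * ‖deriv F ((C : ℂ) * V0)‖ ≤ 2 * (4 * B + 2) * (C1 * (1 + C * V0) ^ 4) := by
          gcongr
          exact hκ.2
      _ < ‖LL lam (fun ζ => F (((C * V0 : ℝ) : ℂ) + (psi ζ + a0 * ζ))) z‖ := by linarith
  -- intermediate value
  obtain ⟨V, hV, hVκ⟩ : ∃ V : ℝ, V0 ≤ V ∧ ‖β V‖ = 2 * ‖κ‖ := by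
    have h1 : ∀ᶠ V : ℝ in atTop, ‖β V‖ < 2 * ‖κ‖ := by
      refine hβl.norm.eventually (Iio_mem_nhds ?_)
      have : 0 < ‖κ‖ := norm_pos_iff.2 hκ0
      linarith
    obtain ⟨V1, hV1, hV2⟩ := (h1.and (eventually_ge_atTop V0)).exists
    have h2 : ContinuousOn (fun V => ‖β V‖) (Icc V0 V1) :=
      (hβc.mono (fun x hx => hV0.trans hx.1)).norm
    obtain ⟨V, hV, hVκ⟩ := intermediate_value_Icc' hV2 h2 ⟨hV1.le, hbig.le⟩
    exact ⟨V, hV.1, hVκ⟩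
  have hVp : 0 < V := by linarith
  have hV10 : 10 * a0 ≤ V := hV0.trans hV
  obtain ⟨D, hD⟩ : ∃ D : ℂ, D = deriv F ((C : ℂ) * V) := ⟨_, rfl⟩
  have hD0 : D ≠ 0 := by rw [hD]; exact hFne V hVp
  obtain ⟨y0, hy0⟩ : ∃ y0 : ℂ, y0 = 1 - β V / κ := ⟨_, rfl⟩
  have hy1 : ‖y0 - 1‖ = 2 := by
    have : y0 - 1 = -(β V / κ) := by rw [hy0]; ring
    rw [this, norm_neg, norm_div, hVκ, mul_div_assoc, div_self (norm_ne_zero_iff.2 hκ0), mul_one]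
  obtain ⟨g, hg⟩ := hgs y0 hy1
  obtain ⟨hUi, hUd⟩ := hU y0 δ ε c a0 V C g F hg ha hV10 hcC hFd hFi
  have hΦd := hHo lam B hP z hz (ball y0 δ)
    (fun y ζ => F ((C : ℂ) * V + V * g y ((psi ζ + a0 * ζ) / V))) isOpen_ball hUd
  obtain ⟨y, hy, hy2⟩ := hZ (fun y => LL lam
    (fun ζ => F ((C : ℂ) * V + V * g y ((psi ζ + a0 * ζ) / V))) z / (D * κ)) y0 δ hδ
    (hΦd.div_const _) (by
      intro y hy
      have hy4 : ‖y‖ ≤ 4 := by
        have h1 : ‖y - y0‖ < δ := by simpa [dist_eq_norm] using hy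
        have h2 : y = (y - y0) + (y0 - 1) + 1 := by ring
        calc ‖y‖ = ‖(y - y0) + (y0 - 1) + 1‖ := by rw [← h2]
          _ ≤ ‖y - y0‖ + ‖y0 - 1‖ + ‖(1 : ℂ)‖ := norm_add₃_le
          _ ≤ 4 := by rw [hy1, norm_one]; linarith
      have hgd : DifferentiableOn ℂ (g y) Om := by
        have h1 : DifferentiableOn ℂ (fun v : ℂ => ((y, v) : ℂ × ℂ)) Om :=
          (differentiableOn_const y).prodMk differentiableOn_id
        exact hg.dif.comp h1 (fun v hv => ⟨hy, hv⟩)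
      have h1 := errLL hC hL hJ hP hz hFd (a0 := a0) (V := V) (C := C) (c := c) (M := M) (ε := ε)
        ha hV10 hM1 hMC hcC hε0.le (y := y) (g := g y) hgd (hg.dec y hy)
        (hErr C hMC F hFd hFi V ε y (g y) hVp hε0.le hε1 hy4 (hg.dec y hy) (hg.tay y hy))
      rw [← hκd, ← hD] at h1
      have h2 : β V = LL lam (fun ζ => F ((C : ℂ) * V + (psi ζ + a0 * ζ))) z / D := by
        rw [hβd, hD]
      have h3 : LL lam (fun ζ => F ((C : ℂ) * V + V * g y ((psi ζ + a0 * ζ) / V))) z / (D * κ) -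
          (y - y0) = (LL lam (fun ζ => F ((C : ℂ) * V + V * g y ((psi ζ + a0 * ζ) / V))) z -
          (LL lam (fun ζ => F ((C : ℂ) * V + (psi ζ + a0 * ζ))) z + (y - 1) * D * κ)) /
          (D * κ) := by
        rw [hy0, h2]
        field_simp
        ring
      have h4 : 0 < ‖D * κ‖ := norm_pos_iff.2 (mul_ne_zero hD0 hκ0)
      rw [h3, norm_div, div_le_iff₀ h4]
      refine h1.trans ?_
      rw [norm_mul]
      have h5 : CJ * B * (‖D‖ * ((ε + M / C) * (1 + a0) +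
          M * V ^ (-(1 / 2) : ℝ) * (1 + a0) ^ (3 / 2 : ℝ))) =
          ‖D‖ * (T * ε + T * (M / C) +
            CJ * B * (M * V ^ (-(1 / 2) : ℝ) * (1 + a0) ^ (3 / 2 : ℝ))) := by
        rw [hT]; ring
      rw [h5]
      have h6 := hV0T V hV
      calc ‖D‖ * (T * ε + T * (M / C) +
            CJ * B * (M * V ^ (-(1 / 2) : ℝ) * (1 + a0) ^ (3 / 2 : ℝ)))
          ≤ ‖D‖ * (δ / 64 + δ / 64 + δ / 64) := by gcongr
        _ ≤ ‖D‖ * (δ / 16 * ‖κ‖) := by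
            gcongr
            nlinarith [hκ.1]
        _ = δ / 16 * (‖D‖ * ‖κ‖) := by ring)
  have h1 : LL lam (fun ζ => F ((C : ℂ) * V + V * g y ((psi ζ + a0 * ζ) / V))) z = 0 := by
    rcases div_eq_zero_iff.1 hy2 with h | h
    · exact h
    · exact absurd h (mul_ne_zero hD0 hκ0)
  refine hP.ne (fun ζ => F ((C : ℂ) * V + V * g y ((psi ζ + a0 * ζ) / V))) ?_ (hUi y hy) z hz h1
  have h2 : DifferentiableOn ℂ (fun ζ : ℂ => ((y, ζ) : ℂ × ℂ)) (ball (0 : ℂ) 1) :=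
    (differentiableOn_const y).prodMk differentiableOn_id
  exact hUd.comp h2 (fun ζ hζ => ⟨hy, hζ⟩)

end Pool.Agent.MultS.Lip
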