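import Pool.Agent.Work.MP_b17785_an.Lip.AreaD
import Pool.Agent.Work.MP_b17785_an.Bd.B10
import Pool.Agent.Work.MP_b17785_an.Bd.B07
import Pool.Agent.Work.MP_b17785_an.Bd.B13
import Pool.Agent.Work.MP_b17785_an.Lip.E12
import Pool.Agent.Work.MP_b17785_an.Bd.B08
import Pool.Agent.Work.MP_b17785_an.Bd.B14
import Pool.Agent.Work.MP_b17785_an.Bd.B11
import Pool.Agent.Work.MP_b17785_an.Lip.HKm

/-!
# The Lipschitz dichotomy: everything together
-/

set_option autoImplicit false

open Complex Metric Set Filter Topology MeasureTheory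

namespace Pool.Agent.MultS.Lip

theorem extrAll : Extr :=
  MultS.extr_of prfLipLim prfLipComp prfLipMax prfLipMid prfLipSqrt prfLipBrick

theorem growEAll : GrowE :=
  MultS.growE_of prfLipConn prfLipConnZ prfLipArea prfLipRay prfLipShad prfLipProj prfLipGrw

theorem g4All : G4 := prfG4 (prfKTr prfCay) prfCay

theorem hkmAll : HKm :=
  prfHKm prfCay prfLin (prfHalfB prfCay (prfAreaD prfOrth) (prfChVar prfCay) prfJint) prfHol
    (prfKap prfLin) (prfKTr prfCay) g4All prfStart (prfHkD prfHkA prfHkB (prfHkC prfHkA prfHkB))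
    (prfErr g4All) (prfBetC prfCay prfLin prfLoc g4All (prfKTr prfCay)) (prfUni prfCay) prfZer

theorem mainAll : Main := prfMain prfLin prfRota hkmAll extrAll growEAll

theorem bndUAll : BndU :=
  prfBndU (prfUnifM (prfSeqM prfLipLim) prfConvP prfUnifOne) prfGrowU prfLowU prfStartU prfClimbU

/-- One Lipschitz constant for all multipliers of `S` away from the rotations. -/
theorem dichAll : ∀ η : ℝ, 0 < η → ∃ X : ℝ, ∀ lam : ℕ → ℂ, Lit Sc lam → ‖lam 2‖ ≤ 1 - η →
    XN lam X :=
  dichU bndUAll (prfPackU prfParsQ) mainAll prfLin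

end Pool.Agent.MultS.Lip
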