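import Pool.Agent.Work.MP_b17785_an.StmtsK

/-!
# The Lipschitz dichotomy for multipliers of `S`: definitions

`psi`, `phi` : the Cayley transforms between the disk and the right half plane `Hp`.
`LL lam h z = ∑ (n+1) lam_(n+1) h_(n+1) z^n` : the derivative at `z` of the Hadamard product of
`h` with `lam`.  `Pack lam B` : the quantitative information about a non-rotation multiplier.
`Hook` : the hooks, holomorphic families of injective functions on `Om = {Re v > -1/10}`, close to
the identity at infinity and with derivative about `y` at `0`.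
-/

set_option autoImplicit false

open Complex Metric Set Filter Topology MeasureTheory

namespace Pool.Agent.MultS.Lip

/-- The right half plane. -/
def Hp : Set ℂ := {w : ℂ | 0 < w.re}

/-- From the half plane to the disk. -/
noncomputable def phi (w : ℂ) : ℂ := (w - 1) / (w + 1)

/-- From the disk to the half plane. -/
noncomputable def psi (z : ℂ) : ℂ := (1 + z) / (1 - z)

/-- The derivative of the Hadamard product of `h` and `∑ lam n z ^ n`. -/
noncomputable def LL (lam : ℕ → ℂ) (h : ℂ → ℂ) (z : ℂ) : ℂ :=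
  ∑' n : ℕ, ((n : ℂ) + 1) * lam (n + 1) * tc h (n + 1) * z ^ n

/-- What is known about a multiplier that is not a rotation. -/
structure Pack (lam : ℕ → ℂ) (B : ℝ) : Prop where
  /-- normalisation -/
  one : lam 1 = 1
  /-- the bound is at least one -/
  le : 1 ≤ B
  /-- `∑ n |lam n|` converges -/
  sm : Summable (fun n : ℕ => ((n : ℝ) + 1) * ‖lam (n + 1)‖)
  /-- and is at most `B` -/
  sb : ∑' n : ℕ, ((n : ℝ) + 1) * ‖lam (n + 1)‖ ≤ B
  /-- the kernel is bounded by `B` -/
  kb : ∀ u ∈ ball (0 : ℂ) 1,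
    ‖∑' n : ℕ, ((n : ℂ) + 1) * ((n : ℂ) + 2) * lam (n + 1) * u ^ n‖ ≤ B
  /-- the functional does not vanish on injective functions -/
  ne : ∀ F : ℂ → ℂ, DifferentiableOn ℂ F (ball 0 1) → InjOn F (ball 0 1) →
    ∀ z ∈ ball (0 : ℂ) 1, LL lam F z ≠ 0

/-- The domain of the hooks. -/
def Om : Set ℂ := {v : ℂ | -(1 / 10 : ℝ) < v.re}

/-- A holomorphic family of hooks `g y`, `|y - y0| < δ`. -/
structure Hook (y0 : ℂ) (δ ε c : ℝ) (g : ℂ → ℂ → ℂ) : Prop where
  /-- injectivity -/
  inj : ∀ y ∈ ball y0 δ, InjOn (g y) Om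
  /-- joint holomorphy -/
  dif : DifferentiableOn ℂ (fun p : ℂ × ℂ => g p.1 p.2) (ball y0 δ ×ˢ Om)
  /-- close to the identity at infinity -/
  dec : ∀ y ∈ ball y0 δ, ∀ v ∈ Om, ‖g y v - v‖ ≤ c / (1 + ‖v‖) ^ 3
  /-- derivative about `y` at `0` -/
  tay : ∀ y ∈ ball y0 δ, ∀ v ∈ Om, ‖v‖ ≤ 1 → ‖g y v - g y 0 - y * v‖ ≤ ε * ‖v‖ + c * ‖v‖ ^ 2

end Pool.Agent.MultS.Lip
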