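import Pool.Agent.Work.MP_b17785_an.Lip.Stmts
import Pool.Agent.Work.MP_b17785_an.All
import Pool.Agent.Work.MP_b17785_an.Bd.B02

/-!
# Multipliers that are not rotations have a pack
-/

set_option autoImplicit false

open Complex Metric Set Filter Topology MeasureTheory

namespace Pool.Agent.MultS.Lip

namespace PackEx'

theorem sc_id : Sc (fun z : ℂ => z) := by
  refine ⟨differentiableOn_id, fun a _ b _ h => h, rfl, ?_⟩
  exact deriv_id (0 : ℂ)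

theorem one_of {lam : ℕ → ℂ} (h : IsMult lam) : lam 1 = 1 := by
  obtain ⟨g, hg, ht⟩ := h _ sc_id
  have h1 := ht 1 le_rfl
  rw [tc_one, tc_one, hg.2.2.2, sc_id.2.2.2, mul_one] at h1
  exact h1.symm

theorem sm_of {lam : ℕ → ℂ} (h4 : Summable (fun n : ℕ => (n : ℝ) ^ 4 * ‖lam n‖ ^ 2)) :
    Summable (fun n : ℕ => ((n : ℝ) + 1) * ‖lam (n + 1)‖) := by
  have h1 : Summable (fun n : ℕ => ((n + 1 : ℕ) : ℝ) ^ 4 * ‖lam (n + 1)‖ ^ 2) :=
    (summable_nat_add_iff 1).mpr h4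
  have h2 : Summable (fun n : ℕ => 1 / ((n + 1 : ℕ) : ℝ) ^ 2) :=
    (summable_nat_add_iff 1).mpr (Real.summable_one_div_nat_pow.mpr one_lt_two)
  refine Summable.of_nonneg_of_le (fun n => by positivity) (fun n => ?_) (h1.add h2)
  push_cast
  have hn : (0 : ℝ) < (n : ℝ) + 1 := by positivity
  have h3 := two_mul_le_add_sq (((n : ℝ) + 1) ^ 2 * ‖lam (n + 1)‖) (1 / ((n : ℝ) + 1))
  have h5 : 2 * (((n : ℝ) + 1) ^ 2 * ‖lam (n + 1)‖) * (1 / ((n : ℝ) + 1)) =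
      2 * (((n : ℝ) + 1) * ‖lam (n + 1)‖) := by
    field_simp
  have h6 : (((n : ℝ) + 1) ^ 2 * ‖lam (n + 1)‖) ^ 2 = ((n : ℝ) + 1) ^ 4 * ‖lam (n + 1)‖ ^ 2 := by
    ring
  have h7 : (1 / ((n : ℝ) + 1)) ^ 2 = 1 / ((n : ℝ) + 1) ^ 2 := by
    rw [div_pow, one_pow]
  rw [h5, h6, h7] at h3
  have h8 : 0 ≤ ((n : ℝ) + 1) * ‖lam (n + 1)‖ := by positivity
  linarith

theorem half_mem : (1 / 2 : ℂ) ∈ ball (0 : ℂ) 1 := by
  rw [mem_ball_zero_iff]; norm_num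

theorem dsum {lam : ℕ → ℂ} {C : ℝ} (hC : ∀ z ∈ ball (0 : ℂ) 1,
    Summable (fun n : ℕ => (n : ℂ) ^ 2 * lam n * z ^ n) ∧
      ‖∑' n : ℕ, (n : ℂ) ^ 2 * lam n * z ^ n‖ ≤ C) :
    Summable (fun n : ℕ => ((n : ℝ) + 1) ^ 2 * ‖lam (n + 1)‖ * (1 / 2) ^ n) := by
  have h1 := (hC _ half_mem).1.norm
  have h2 := ((summable_nat_add_iff 1).mpr h1).mul_left 2
  refine h2.congr (fun n => ?_)
  rw [norm_mul, norm_mul, norm_pow, norm_pow, Complex.norm_natCast]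
  have h3 : ‖(1 / 2 : ℂ)‖ = 1 / 2 := by norm_num
  rw [h3, pow_succ]
  push_cast
  ring

theorem asum {lam : ℕ → ℂ} {C : ℝ} (hC : ∀ z ∈ ball (0 : ℂ) 1,
    Summable (fun n : ℕ => (n : ℂ) ^ 2 * lam n * z ^ n) ∧
      ‖∑' n : ℕ, (n : ℂ) ^ 2 * lam n * z ^ n‖ ≤ C) {u : ℂ} (hu : u ∈ ball (0 : ℂ) 1) :
    Summable (fun n : ℕ => ((n : ℂ) + 1) ^ 2 * lam (n + 1) * u ^ n) ∧
    ‖∑' n : ℕ, ((n : ℂ) + 1) ^ 2 * lam (n + 1) * u ^ n‖ ≤
      2 * C + ∑' n : ℕ, ((n : ℝ) + 1) ^ 2 * ‖lam (n + 1)‖ * (1 / 2) ^ n := by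
  have hD := dsum hC
  have hD0 : 0 ≤ ∑' n : ℕ, ((n : ℝ) + 1) ^ 2 * ‖lam (n + 1)‖ * (1 / 2) ^ n :=
    tsum_nonneg (fun n => by positivity)
  have hC0 : 0 ≤ C := (norm_nonneg _).trans (hC u hu).2
  rcases le_or_gt ‖u‖ (1 / 2) with h | h
  · have hb : ∀ n : ℕ, ‖((n : ℂ) + 1) ^ 2 * lam (n + 1) * u ^ n‖ ≤
        ((n : ℝ) + 1) ^ 2 * ‖lam (n + 1)‖ * (1 / 2) ^ n := by
      intro n
      rw [norm_mul, norm_mul, norm_pow, norm_pow]
      have h1 : ‖(n : ℂ) + 1‖ = (n : ℝ) + 1 := by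
        have : ((n : ℂ) + 1) = ((n + 1 : ℕ) : ℂ) := by push_cast; rfl
        rw [this, Complex.norm_natCast]; push_cast; rfl
      rw [h1]
      gcongr
    have hs : Summable (fun n : ℕ => ((n : ℂ) + 1) ^ 2 * lam (n + 1) * u ^ n) :=
      Summable.of_norm_bounded hD hb
    refine ⟨hs, ?_⟩
    have h2 := norm_tsum_le_tsum_norm (Summable.of_nonneg_of_le (fun n => norm_nonneg _) hb hD)
    have h3 := Summable.tsum_le_tsum hb (Summable.of_nonneg_of_le (fun n => norm_nonneg _) hb hD) hD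
    linarith
  · have hu0 : u ≠ 0 := by
      intro h0; rw [h0, norm_zero] at h; linarith
    obtain ⟨h1, h2⟩ := hC u hu
    have h3 := (h1.hasSum)
    rw [← hasSum_nat_add_iff' 1] at h3
    simp only [Finset.range_one, Finset.sum_singleton, Nat.cast_zero, ne_eq, OfNat.ofNat_ne_zero,
      not_false_eq_true, zero_pow, zero_mul, sub_zero] at h3
    have h4 := h3.mul_left u⁻¹
    have h5 : (fun n : ℕ => u⁻¹ * (((n + 1 : ℕ) : ℂ) ^ 2 * lam (n + 1) * u ^ (n + 1))) =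
        fun n : ℕ => ((n : ℂ) + 1) ^ 2 * lam (n + 1) * u ^ n := by
      funext n
      push_cast
      rw [pow_succ u n]
      field_simp
    rw [h5] at h4
    refine ⟨h4.summable, ?_⟩
    rw [h4.tsum_eq, norm_mul, norm_inv]
    have h6 : ‖u‖⁻¹ ≤ 2 := by
      rw [inv_le_comm₀ (by linarith) two_pos]
      linarith
    have h7 : ‖u‖⁻¹ * ‖∑' n : ℕ, (n : ℂ) ^ 2 * lam n * u ^ n‖ ≤ 2 * C :=
      mul_le_mul h6 h2 (norm_nonneg _) two_pos.le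
    linarith

theorem kb_of {lam : ℕ → ℂ} {C : ℝ} (hC : ∀ z ∈ ball (0 : ℂ) 1,
    Summable (fun n : ℕ => (n : ℂ) ^ 2 * lam n * z ^ n) ∧
      ‖∑' n : ℕ, (n : ℂ) ^ 2 * lam n * z ^ n‖ ≤ C)
    (hsm : Summable (fun n : ℕ => ((n : ℝ) + 1) * ‖lam (n + 1)‖)) {u : ℂ}
    (hu : u ∈ ball (0 : ℂ) 1) :
    ‖∑' n : ℕ, ((n : ℂ) + 1) * ((n : ℂ) + 2) * lam (n + 1) * u ^ n‖ ≤
      2 * C + (∑' n : ℕ, ((n : ℝ) + 1) ^ 2 * ‖lam (n + 1)‖ * (1 / 2) ^ n) +
      ∑' n : ℕ, ((n : ℝ) + 1) * ‖lam (n + 1)‖ := by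
  obtain ⟨ha, hb⟩ := asum hC hu
  have hu1 : ‖u‖ ≤ 1 := by
    rw [mem_ball_zero_iff] at hu; exact hu.le
  have hbd : ∀ n : ℕ, ‖((n : ℂ) + 1) * lam (n + 1) * u ^ n‖ ≤ ((n : ℝ) + 1) * ‖lam (n + 1)‖ := by
    intro n
    rw [norm_mul, norm_mul, norm_pow]
    have h1 : ‖(n : ℂ) + 1‖ = (n : ℝ) + 1 := by
      have : ((n : ℂ) + 1) = ((n + 1 : ℕ) : ℂ) := by push_cast; rfl
      rw [this, Complex.norm_natCast]; push_cast; rfl
    rw [h1]
    exact mul_le_of_le_one_right (by positivity) (pow_le_one₀ (norm_nonneg _) hu1)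
  have hs : Summable (fun n : ℕ => ((n : ℂ) + 1) * lam (n + 1) * u ^ n) :=
    Summable.of_norm_bounded hsm hbd
  have he : (∑' n : ℕ, ((n : ℂ) + 1) * ((n : ℂ) + 2) * lam (n + 1) * u ^ n) =
      (∑' n : ℕ, ((n : ℂ) + 1) ^ 2 * lam (n + 1) * u ^ n) +
        ∑' n : ℕ, ((n : ℂ) + 1) * lam (n + 1) * u ^ n := by
    rw [← ha.tsum_add hs]
    congr 1
    funext n
    ring
  rw [he]
  have hn := Summable.of_nonneg_of_le (fun n => norm_nonneg _) hbd hsm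
  have h2 := norm_tsum_le_tsum_norm hn
  have h3 := Summable.tsum_le_tsum hbd hn hsm
  have h4 := norm_add_le (∑' n : ℕ, ((n : ℂ) + 1) ^ 2 * lam (n + 1) * u ^ n)
    (∑' n : ℕ, ((n : ℂ) + 1) * lam (n + 1) * u ^ n)
  linarith

theorem ne_of {lam : ℕ → ℂ} (hm : IsMult lam) (F : ℂ → ℂ) (hF : DifferentiableOn ℂ F (ball 0 1))
    (hi : InjOn F (ball 0 1)) (z : ℂ) (hz : z ∈ ball (0 : ℂ) 1) : LL lam F z ≠ 0 := by
  have h0m : (0 : ℂ) ∈ ball (0 : ℂ) 1 := mem_ball_self one_pos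
  have hd : deriv F 0 ≠ 0 := prfDerNe _ F isOpen_ball hF hi 0 h0m
  have hFt : Sc (fun w => (F w - F 0) / deriv F 0) := by
    refine ⟨(hF.sub_const _).div_const _, ?_, by simp, ?_⟩
    · intro a ha b hb hab
      apply hi ha hb
      have h1 : (F a - F 0) / deriv F 0 = (F b - F 0) / deriv F 0 := hab
      rw [div_left_inj' hd] at h1
      exact sub_left_inj.mp h1
    · have h1 : HasDerivAt F (deriv F 0) 0 :=
        (hF.differentiableAt (isOpen_ball.mem_nhds h0m)).hasDerivAt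
      have h2 := (h1.sub_const (F 0)).div_const (deriv F 0)
      rw [h2.deriv, div_self hd]
  have htc : ∀ n : ℕ, 1 ≤ n → tc (fun w => (F w - F 0) / deriv F 0) n = tc F n / deriv F 0 := by
    intro n hn
    refine tc_of_hasSum_succ (c := fun n => tc F n / deriv F 0) (fun w hw => ?_) n hn
    have h1 := hasSum_tc hF hw
    rw [← hasSum_nat_add_iff' 1] at h1
    simp only [Finset.range_one, Finset.sum_singleton, pow_zero, mul_one, tc_zero] at h1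
    have h2 := h1.div_const (deriv F 0)
    refine h2.congr_fun ?_ |> fun h => h
    intro k
    ring
  obtain ⟨g, hg, hgt⟩ := hm _ hFt
  have h1 := (prfSer g hg.1 z hz).2.1
  have h2 : (fun k : ℕ => ((k : ℂ) + 1) * tc g (k + 1) * z ^ k) =
      fun k : ℕ => (((k : ℂ) + 1) * lam (k + 1) * tc F (k + 1) * z ^ k) / deriv F 0 := by
    funext k
    rw [hgt (k + 1) (by omega), htc (k + 1) (by omega)]
    ring
  rw [h2] at h1
  have h3 : deriv g z = LL lam F z / deriv F 0 := by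
    rw [← h1.tsum_eq, tsum_div_const]
    rfl
  have h4 : deriv g z ≠ 0 := prfDerNe _ g isOpen_ball hg.1 hg.2.1 z hz
  intro h5
  rw [h5, zero_div] at h3
  exact h4 h3

end PackEx'

open PackEx' in
theorem prfPackEx : PackEx := by
  intro lam hlit hnot
  rcases finalAll.1 lam hlit with h | ⟨⟨C, hC⟩, h4⟩
  · exact absurd h hnot
  · have hm : IsMult lam := prfLitMult lam hlit
    have hsm := sm_of h4
    have hC0 : 0 ≤ C := (norm_nonneg _).trans (hC 0 (mem_ball_self one_pos)).2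
    have hS0 : 0 ≤ ∑' n : ℕ, ((n : ℝ) + 1) * ‖lam (n + 1)‖ := tsum_nonneg (fun n => by positivity)
    have hD0 : 0 ≤ ∑' n : ℕ, ((n : ℝ) + 1) ^ 2 * ‖lam (n + 1)‖ * (1 / 2) ^ n :=
      tsum_nonneg (fun n => by positivity)
    refine ⟨1 + (2 * C + (∑' n : ℕ, ((n : ℝ) + 1) ^ 2 * ‖lam (n + 1)‖ * (1 / 2) ^ n) +
      ∑' n : ℕ, ((n : ℝ) + 1) * ‖lam (n + 1)‖), one_of hm, by linarith, hsm, by linarith,
      fun u hu => ?_, fun F hF hi z hz => ne_of hm F hF hi z hz⟩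
    have := kb_of hC hsm hu
    linarith

end Pool.Agent.MultS.Lip
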